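import Mathlib

/-!
# Allowable sequences and halving swaps: definitions

A simple allowable sequence on `n` elements (Goodman and Pollack) is a sequence of permutations of
`0, …, n - 1` which starts with the identity, ends with the reversed order and has
`n (n - 1) / 2` steps, each of which exchanges two entries in adjacent positions (so that every pair
of elements is exchanged exactly once). Simple allowable sequences are the combinatorial description
of simple arrangements of `n` pseudolines.
-/

set_option autoImplicit false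

namespace Pool.Agent.Work.MP_e17eac_co.PL

/-- The exchange of the positions `i` and `i + 1` (positions are numbered `0, …, n - 1`). -/
def adj (n i : ℕ) (h : i + 1 < n) : Equiv.Perm (Fin n) :=
  Equiv.swap ⟨i, Nat.lt_of_succ_lt h⟩ ⟨i + 1, h⟩

/-- A simple allowable sequence on `n` elements: `perm t j` is the element in position `j` at time
`t`; the sequence starts with the identity, ends (at time `n (n - 1) / 2`) with the reversed order,
and every step exchanges the entries in two adjacent positions. -/
structure AllowableSeq (n : ℕ) where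
  perm : ℕ → Equiv.Perm (Fin n)
  start : perm 0 = 1
  finish : perm (n.choose 2) = Fin.revPerm
  step : ∀ t, t < n.choose 2 → ∃ (i : ℕ) (h : i + 1 < n), perm (t + 1) = perm t * adj n i h

/-- The number of steps which exchange the entries in the positions `k` and `k + 1`. -/
noncomputable def AllowableSeq.swaps {n : ℕ} (A : AllowableSeq n) (k : ℕ) : ℕ :=
  {t : ℕ | t < n.choose 2 ∧ ∃ h : k + 1 < n, A.perm (t + 1) = A.perm t * adj n k h}.ncard

/-- The number of halving swaps: the steps which exchange the entries in the two middle positions,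
the last position of the first half and the first position of the second half. -/
noncomputable def AllowableSeq.halvingSwaps {n : ℕ} (A : AllowableSeq n) : ℕ :=
  A.swaps (n / 2 - 1)

/-! ### Auxiliary notions -/

/-- `Path n M σ τ len k`: there is a sequence of `len` steps from `σ` to `τ`, each of which
exchanges an increasing adjacent pair of entries, exactly `k` of them in the positions `M - 1, M`. -/
inductive Path (n M : ℕ) : Equiv.Perm (Fin n) → Equiv.Perm (Fin n) → ℕ → ℕ → Prop
  | nil (σ : Equiv.Perm (Fin n)) : Path n M σ σ 0 0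
  | cons (σ τ : Equiv.Perm (Fin n)) (i : ℕ) (h : i + 1 < n)
      (hlt : σ ⟨i, Nat.lt_of_succ_lt h⟩ < σ ⟨i + 1, h⟩) (len k : ℕ)
      (hp : Path n M (σ * adj n i h) τ len k) :
      Path n M σ τ (len + 1) (if i + 1 = M then k + 1 else k)

/-- The inversions of `σ` (pairs of elements `a < b` with `b` before `a`) are inversions of `τ`. -/
def InvLe {n : ℕ} (σ τ : Equiv.Perm (Fin n)) : Prop :=
  ∀ a b : Fin n, a < b → σ.symm b < σ.symm a → τ.symm b < τ.symm a

/-- The set of the first `M` entries of `σ`. -/
def firstSet {n : ℕ} (M : ℕ) (σ : Equiv.Perm (Fin n)) : Finset (Fin n) :=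
  Finset.univ.filter fun a => (σ.symm a : ℕ) < M

/-- Weak order: between two permutations with nested inversion sets there is a path; if the sets of
the first `M` entries differ, the path exchanges the positions `M - 1, M` at least once. -/
def ClaimWeak : Prop :=
  ∀ (n M : ℕ) (σ τ : Equiv.Perm (Fin n)), InvLe σ τ →
    ∃ len k, Path n M σ τ len k ∧ (firstSet M σ ≠ firstSet M τ → 1 ≤ k)

/-- Paths can be concatenated. -/
def ClaimTrans : Prop :=
  ∀ (n M : ℕ) (σ τ ρ : Equiv.Perm (Fin n)) (l k l' k' : ℕ),
    Path n M σ τ l k → Path n M τ ρ l' k' → Path n M σ ρ (l + l') (k + k')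

/-- A path from the identity to the reversed order is an allowable sequence. -/
def ClaimSeq : Prop :=
  ∀ (n M : ℕ), 1 ≤ M → ∀ (len k : ℕ), Path n M 1 Fin.revPerm len k →
    ∃ A : AllowableSeq n, k ≤ A.swaps (M - 1)

/-- Strongly separated sets are the sets of the first `M` entries of permutations with nested
inversion sets. -/
def ClaimPerms : Prop :=
  ∀ (n M m : ℕ) (I : ℕ → Finset (Fin n)), (∀ t ≤ m, (I t).card = M) →
    (∀ s t, s ≤ t → t ≤ m → ∀ i ∈ I s, i ∉ I t → ∀ j ∈ I t, j ∉ I s → i < j) →
    ∃ π : ℕ → Equiv.Perm (Fin n), (∀ t ≤ m, firstSet M (π t) = I t) ∧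
      (∀ s t, s ≤ t → t ≤ m → InvLe (π s) (π t))

/-- Strongly separated `M`-sets give an allowable sequence in which the positions `M - 1, M` are
exchanged at least as often as the sets change. -/
def ClaimSets : Prop :=
  ∀ (n M m : ℕ) (I : ℕ → Finset (Fin n)), 1 ≤ M → (∀ t ≤ m, (I t).card = M) →
    (∀ s t, s ≤ t → t ≤ m → ∀ i ∈ I s, i ∉ I t → ∀ j ∈ I t, j ∉ I s → i < j) →
    ∃ A : AllowableSeq n, {t : ℕ | t < m ∧ I t ≠ I (t + 1)}.ncard ≤ A.swaps (M - 1)

/-- The same in terms of classes of parallel pseudolines: `s t c` is the number of lines of the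
class `c` which are below the level at time `t`. -/
def ClaimStates : Prop :=
  ∀ (C M m n : ℕ) (size : ℕ → ℕ) (s : ℕ → ℕ → ℕ), 1 ≤ M →
    (∑ c ∈ Finset.range C, size c = n) →
    (∀ t ≤ m, ∀ c < C, s t c ≤ size c) →
    (∀ t ≤ m, ∑ c ∈ Finset.range C, s t c = M) →
    (∀ t t', t ≤ t' → t' ≤ m → ∀ c c', c < c' → c' < C →
      ¬ (s t c < s t' c ∧ s t' c' < s t c')) →
    ∃ A : AllowableSeq n,
      {t : ℕ | t < m ∧ ∃ c < C, s t c ≠ s (t + 1) c}.ncard ≤ A.swaps (M - 1)

end Pool.Agent.Work.MP_e17eac_co.PL
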