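import Pool.Agent.Work.MP_e17eac_co.PL.Rec

/-!
# Counting the changes of the states
-/

set_option autoImplicit false

namespace Pool.Agent.Work.MP_e17eac_co.PL

namespace Chg

lemma cons_cons (k : ℕ) (a b : ℕ → ℚ) (l : List (ℕ → ℚ)) :
    chg k (a :: b :: l) =
      (if ∀ i ∈ Finset.range (numC k), a i = b i then 0 else 1) + chg k (b :: l) := rfl

lemma le_cons (k : ℕ) (a : ℕ → ℚ) (l : List (ℕ → ℚ)) : chg k l ≤ chg k (a :: l) := by
  cases l with
  | nil => simp [chg]
  | cons b l => rw [cons_cons]; omega

lemma le_append (k : ℕ) (l1 l2 : List (ℕ → ℚ)) : chg k l1 + chg k l2 ≤ chg k (l1 ++ l2) := by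
  induction l1 with
  | nil => simp [chg]
  | cons a l ih =>
    cases l with
    | nil =>
      have := le_cons k a l2
      simpa [chg] using this
    | cons b l =>
      rw [cons_cons]
      change _ ≤ chg k (a :: b :: (l ++ l2))
      rw [cons_cons]
      have h : chg k (b :: l) + chg k l2 ≤ chg k (b :: (l ++ l2)) := ih
      omega

lemma le_map (k k' : ℕ) (φ : (ℕ → ℚ) → (ℕ → ℚ))
    (hφ : ∀ h h', (∀ i ∈ Finset.range (numC k'), φ h i = φ h' i) →
      ∀ i ∈ Finset.range (numC k), h i = h' i) (l : List (ℕ → ℚ)) :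
    chg k l ≤ chg k' (l.map φ) := by
  induction l with
  | nil => simp [chg]
  | cons a l ih =>
    cases l with
    | nil => simp [chg]
    | cons b l =>
      rw [cons_cons, List.map_cons, List.map_cons, cons_cons]
      rw [List.map_cons] at ih
      by_cases h : ∀ i ∈ Finset.range (numC k), a i = b i
      · rw [if_pos h]
        omega
      · rw [if_neg h, if_neg (fun h' => h (hφ a b h'))]
        omega

lemma le_flatMap (k c : ℕ) (f : ℕ → List (ℕ → ℚ)) (hf : ∀ t, c ≤ chg k (f t)) (L : List ℕ) :
    L.length * c ≤ chg k (L.flatMap f) := by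
  induction L with
  | nil => simp
  | cons t L ih =>
    rw [List.flatMap_cons, List.length_cons]
    have h1 := le_append k (f t) (L.flatMap f)
    have h2 := hf t
    calc (L.length + 1) * c = c + L.length * c := by ring
      _ ≤ chg k (f t) + chg k (L.flatMap f) := Nat.add_le_add h2 ih
      _ ≤ _ := h1

lemma emb_f (k j t : ℕ) (f : ℕ → ℚ) (r : ℚ) (g : ℕ → ℚ) (i : ℕ) (hi : i < numC k) :
    emb k j t f r g i = (2 * j * slope k i + t + f i) / 128 := by
  simp [emb, comb, hi]

lemma emb_g (k j t : ℕ) (f : ℕ → ℚ) (r : ℚ) (g : ℕ → ℚ) (i : ℕ) :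
    emb k j t f r g (numC k + 1 + i) = (2 * j * (3 + slope k i) + t + g i) / 128 := by
  have h1 : ¬ (numC k + 1 + i < numC k) := by omega
  have h2 : ¬ (numC k + 1 + i = numC k) := by omega
  have h3 : numC k + 1 + i - numC k - 1 = i := by omega
  simp [emb, comb, h1, h2, h3]

lemma numC_succ (k : ℕ) : numC (k + 1) = 2 * numC k + 1 := rfl

lemma map_f (k j t : ℕ) (r : (ℕ → ℚ) → ℚ) (g : ℕ → ℚ) (l : List (ℕ → ℚ)) :
    chg k l ≤ chg (k + 1) (l.map (fun h => emb k j t h (r h) g)) := by
  refine le_map k (k + 1) _ (fun h h' H i hi => ?_) l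
  rw [Finset.mem_range] at hi
  have h1 := H i (by rw [Finset.mem_range, numC_succ]; omega)
  simp only [emb_f _ _ _ _ _ _ _ hi] at h1
  linarith

lemma map_g (k j t : ℕ) (f : ℕ → ℚ) (r : (ℕ → ℚ) → ℚ) (l : List (ℕ → ℚ)) :
    chg k l ≤ chg (k + 1) (l.map (fun h => emb k j t f (r h) h)) := by
  refine le_map k (k + 1) _ (fun h h' H i hi => ?_) l
  rw [Finset.mem_range] at hi
  have h1 := H (numC k + 1 + i) (by rw [Finset.mem_range, numC_succ]; omega)
  simp only [emb_g] at h1
  linarith

lemma unitU_le (k c : ℕ) (P : Bool → ℕ → List (ℕ → ℚ)) (hP : ∀ b j, c ≤ chg k (P b j))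
    (j t : ℕ) : 4 * c ≤ chg (k + 1) (unitU k P j t) := by
  unfold unitU
  have h1 := map_g k j t 0 (fun _ => 0) (P true 0)
  have h2 := map_f k j t (fun _ => 0) 1 (P true 0)
  have h3 := map_f k j t (fun h => 1 - weight k h) 1 (P false 1)
  have h4 := map_f k j t (fun _ => 1) 1 (P true 2)
  have a3 := le_append (k + 1) ((P false 1).map (fun h => emb k j t h (1 - weight k h) 1))
    ((P true 2).map (fun h => emb k j t h 1 1))
  have a2 := le_append (k + 1) ((P true 0).map (fun h => emb k j t h 0 1))
    ((P false 1).map (fun h => emb k j t h (1 - weight k h) 1) ++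
      (P true 2).map (fun h => emb k j t h 1 1))
  have a1 := le_append (k + 1) ((P true 0).map (fun h => emb k j t 0 0 h))
    ((P true 0).map (fun h => emb k j t h 0 1) ++
    ((P false 1).map (fun h => emb k j t h (1 - weight k h) 1) ++
      (P true 2).map (fun h => emb k j t h 1 1)))
  have p1 := hP true 0
  have p2 := hP false 1
  have p3 := hP true 2
  omega

lemma unitD_le (k c : ℕ) (P : Bool → ℕ → List (ℕ → ℚ)) (hP : ∀ b j, c ≤ chg k (P b j))
    (j t : ℕ) : 4 * c ≤ chg (k + 1) (unitD k P j t) := by
  unfold unitD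
  have h1 := map_f k j t (fun _ => 1) 1 (P false 0)
  have h2 := map_g k j t 0 (fun _ => 1) (P false 0)
  have h3 := map_g k j t 0 (fun h => 1 - weight k h) (P true 1)
  have h4 := map_g k j t 0 (fun _ => 0) (P false 2)
  have a3 := le_append (k + 1) ((P true 1).map (fun h => emb k j t 0 (1 - weight k h) h))
    ((P false 2).map (fun h => emb k j t 0 0 h))
  have a2 := le_append (k + 1) ((P false 0).map (fun h => emb k j t 0 1 h))
    ((P true 1).map (fun h => emb k j t 0 (1 - weight k h) h) ++
      (P false 2).map (fun h => emb k j t 0 0 h))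
  have a1 := le_append (k + 1) ((P false 0).map (fun h => emb k j t h 1 1))
    ((P false 0).map (fun h => emb k j t 0 1 h) ++
    ((P true 1).map (fun h => emb k j t 0 (1 - weight k h) h) ++
      (P false 2).map (fun h => emb k j t 0 0 h)))
  have p1 := hP false 0
  have p2 := hP true 1
  have p3 := hP false 2
  omega

end Chg

open Chg in
theorem claimChg : ClaimChg := by
  intro k
  induction k with
  | zero =>
    intro b j
    cases b
    · change 448 ^ 0 ≤ chg 0 [1, 0]
      rw [cons_cons]
      simp [numC, chg]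
    · change 448 ^ 0 ≤ chg 0 [0, 1]
      rw [cons_cons]
      simp [numC, chg]
  | succ k ih =>
    intro b j
    cases b
    · change 448 ^ (k + 1) ≤
        chg (k + 1) ([1] ++ ((List.range 112).reverse.flatMap (unitD k (pass k) j) ++ [0]))
      have h1 := le_flatMap (k + 1) (4 * 448 ^ k) (unitD k (pass k) j)
        (fun t => unitD_le k (448 ^ k) (pass k) ih j t) (List.range 112).reverse
      rw [List.length_reverse, List.length_range] at h1
      have h2 := le_append (k + 1) ((List.range 112).reverse.flatMap (unitD k (pass k) j)) [0]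
      have h3 := le_append (k + 1) [1]
        ((List.range 112).reverse.flatMap (unitD k (pass k) j) ++ [0])
      rw [pow_succ]
      omega
    · change 448 ^ (k + 1) ≤
        chg (k + 1) ([0] ++ ((List.range 112).flatMap (unitU k (pass k) j) ++ [1]))
      have h1 := le_flatMap (k + 1) (4 * 448 ^ k) (unitU k (pass k) j)
        (fun t => unitU_le k (448 ^ k) (pass k) ih j t) (List.range 112)
      rw [List.length_range] at h1
      have h2 := le_append (k + 1) ((List.range 112).flatMap (unitU k (pass k) j)) [1]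
      have h3 := le_append (k + 1) [0]
        ((List.range 112).flatMap (unitU k (pass k) j) ++ [1])
      rw [pow_succ]
      omega

end Pool.Agent.Work.MP_e17eac_co.PL
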