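import Pool.Agent.Work.MP_e17eac_co.PL.Rec

/-!
# Integrality and the number of lines
-/

set_option autoImplicit false

namespace Pool.Agent.Work.MP_e17eac_co.PL

namespace LinesProof

/-- natural rational numbers -/
def N (q : ℚ) : Prop := ∃ z : ℕ, q = z

lemma N_cast (z : ℕ) : N z := ⟨z, rfl⟩

lemma N_zero : N 0 := ⟨0, by simp⟩

lemma N_add {p q : ℚ} (hp : N p) (hq : N q) : N (p + q) := by
  obtain ⟨a, rfl⟩ := hp
  obtain ⟨b, rfl⟩ := hq
  exact ⟨a + b, by push_cast; ring⟩

lemma N_mul {p q : ℚ} (hp : N p) (hq : N q) : N (p * q) := by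
  obtain ⟨a, rfl⟩ := hp
  obtain ⟨b, rfl⟩ := hq
  exact ⟨a * b, by push_cast; ring⟩

lemma N_sum {s : Finset ℕ} {f : ℕ → ℚ} (h : ∀ i ∈ s, N (f i)) : N (∑ i ∈ s, f i) := by
  induction s using Finset.induction_on with
  | empty => simpa using N_zero
  | insert a s ha ih =>
    rw [Finset.sum_insert ha]
    exact N_add (h a (Finset.mem_insert_self a s))
      (ih (fun i hi => h i (Finset.mem_insert_of_mem hi)))

lemma N_sub {p q : ℚ} (hp : N p) (hq : N q) (h : q ≤ p) : N (p - q) := by
  obtain ⟨a, rfl⟩ := hp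
  obtain ⟨b, rfl⟩ := hq
  have hab : b ≤ a := by exact_mod_cast h
  exact ⟨a - b, by rw [Nat.cast_sub hab]⟩

lemma comb_lt {X : Type} {C i : ℕ} (f : ℕ → X) (r : X) (g : ℕ → X) (h : i < C) :
    comb C f r g i = f i := by
  simp [comb, h]

lemma comb_eq {X : Type} {C : ℕ} (f : ℕ → X) (r : X) (g : ℕ → X) : comb C f r g C = r := by
  simp [comb]

lemma comb_gt {X : Type} {C : ℕ} (i : ℕ) (f : ℕ → X) (r : X) (g : ℕ → X) :
    comb C f r g (C + 1 + i) = g i := by
  have h1 : ¬ (C + 1 + i < C) := by omega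
  have h2 : ¬ (C + 1 + i = C) := by omega
  have h3 : C + 1 + i - C - 1 = i := by omega
  unfold comb
  rw [if_neg h1, if_neg h2, h3]

/-- splitting an index -/
lemma split (C i : ℕ) : i < C ∨ i = C ∨ ∃ i', i = C + 1 + i' := by
  rcases lt_trichotomy i C with h | h | h
  · exact Or.inl h
  · exact Or.inr (Or.inl h)
  · exact Or.inr (Or.inr ⟨i - C - 1, by omega⟩)

lemma sum_split {M : Type} [AddCommMonoid M] (C : ℕ) (F : ℕ → M) :
    ∑ i ∈ Finset.range (2 * C + 1), F i
      = ∑ i ∈ Finset.range C, F i + F C + ∑ i ∈ Finset.range C, F (C + 1 + i) := by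
  have h1 : 2 * C + 1 = (C + 1) + C := by ring
  rw [h1, Finset.sum_range_add, Finset.sum_range_succ]

lemma part1 (k : ℕ) : ∑ i ∈ Finset.range (numC k), lines k i = 384 ^ k := by
  induction k with
  | zero => simp [numC, lines]
  | succ k ih =>
    show ∑ i ∈ Finset.range (2 * numC k + 1), lines (k + 1) i = 384 ^ (k + 1)
    rw [sum_split]
    have h1 : ∑ i ∈ Finset.range (numC k), lines (k + 1) i = 128 * 384 ^ k := by
      rw [← ih, Finset.mul_sum]
      refine Finset.sum_congr rfl (fun i hi => ?_)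
      simp only [lines]
      rw [comb_lt _ _ _ (Finset.mem_range.mp hi)]
    have h2 : lines (k + 1) (numC k) = 128 * 384 ^ k := by
      simp only [lines]
      rw [comb_eq]
    have h3 : ∑ i ∈ Finset.range (numC k), lines (k + 1) (numC k + 1 + i) = 128 * 384 ^ k := by
      rw [← ih, Finset.mul_sum]
      refine Finset.sum_congr rfl (fun i hi => ?_)
      simp only [lines]
      rw [comb_gt]
    rw [h1, h2, h3]
    ring

lemma part2 (k : ℕ) : ∀ h : ℕ → ℚ,
    (384 : ℚ) ^ k * weight k h = ∑ i ∈ Finset.range (numC k), (lines k i : ℚ) * h i := by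
  induction k with
  | zero =>
    intro h
    simp [numC, lines, weight]
  | succ k ih =>
    intro h
    show (384 : ℚ) ^ (k + 1) * weight (k + 1) h
      = ∑ i ∈ Finset.range (2 * numC k + 1), (lines (k + 1) i : ℚ) * h i
    rw [sum_split]
    have h1 : ∑ i ∈ Finset.range (numC k), (lines (k + 1) i : ℚ) * h i
        = 128 * ((384 : ℚ) ^ k * weight k h) := by
      rw [ih, Finset.mul_sum]
      refine Finset.sum_congr rfl (fun i hi => ?_)
      simp only [lines]
      rw [comb_lt _ _ _ (Finset.mem_range.mp hi)]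
      push_cast
      ring
    have h2 : (lines (k + 1) (numC k) : ℚ) = 128 * 384 ^ k := by
      simp only [lines]
      rw [comb_eq]
      push_cast
      ring
    have h3 : ∑ i ∈ Finset.range (numC k), (lines (k + 1) (numC k + 1 + i) : ℚ)
          * h (numC k + 1 + i)
        = 128 * ((384 : ℚ) ^ k * weight k (fun i => h (numC k + 1 + i))) := by
      rw [ih, Finset.mul_sum]
      refine Finset.sum_congr rfl (fun i hi => ?_)
      simp only [lines]
      rw [comb_gt]
      push_cast
      ring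
    rw [h1, h2, h3]
    simp only [weight]
    ring

lemma part3 (k : ℕ) : ∀ i : ℕ, N ((lines k i : ℚ) * slope k i) := by
  induction k with
  | zero =>
    intro i
    simpa [lines, slope] using N_zero
  | succ k ih =>
    intro i
    rcases split (numC k) i with h | h | ⟨i', h⟩
    · simp only [lines, slope]
      rw [comb_lt _ _ _ h, comb_lt _ _ _ h]
      have h1 : ((128 * lines k i : ℕ) : ℚ) * (5 / 128 * slope k i)
          = ((5 : ℕ) : ℚ) * ((lines k i : ℚ) * slope k i) := by push_cast; ring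
      rw [h1]
      exact N_mul (N_cast 5) (ih i)
    · subst h
      simp only [lines, slope]
      rw [comb_eq, comb_eq]
      exact ⟨10 * 384 ^ k, by push_cast; ring⟩
    · subst h
      simp only [lines, slope]
      rw [comb_gt, comb_gt]
      have h1 : ((128 * lines k i' : ℕ) : ℚ) * (5 / 128 * (3 + slope k i'))
          = ((15 * lines k i' : ℕ) : ℚ) + ((5 : ℕ) : ℚ) * ((lines k i' : ℚ) * slope k i') := by
        push_cast; ring
      rw [h1]
      exact N_add (N_cast _) (N_mul (N_cast 5) (ih i'))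

lemma emb_N (k j t : ℕ) (f : ℕ → ℚ) (r : ℚ) (g : ℕ → ℚ)
    (hf : ∀ i, N ((lines k i : ℚ) * f i)) (hr : N ((384 : ℚ) ^ k * r))
    (hg : ∀ i, N ((lines k i : ℚ) * g i)) :
    ∀ i, N ((lines (k + 1) i : ℚ) * emb k j t f r g i) := by
  intro i
  rcases split (numC k) i with h | h | ⟨i', h⟩
  · simp only [lines, emb]
    rw [comb_lt _ _ _ h, comb_lt _ _ _ h]
    have h1 : ((128 * lines k i : ℕ) : ℚ) * ((2 * j * slope k i + t + f i) / 128)
        = ((2 * j : ℕ) : ℚ) * ((lines k i : ℚ) * slope k i) + ((t * lines k i : ℕ) : ℚ)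
          + (lines k i : ℚ) * f i := by push_cast; ring
    rw [h1]
    exact N_add (N_add (N_mul (N_cast _) (part3 k i)) (N_cast _)) (hf i)
  · subst h
    simp only [lines, emb]
    rw [comb_eq, comb_eq]
    have h1 : ((128 * 384 ^ k : ℕ) : ℚ) * ((2 * j * 2 + t + r) / 128)
        = ((384 ^ k * (4 * j + t) : ℕ) : ℚ) + (384 : ℚ) ^ k * r := by push_cast; ring
    rw [h1]
    exact N_add (N_cast _) hr
  · subst h
    simp only [lines, emb]
    rw [comb_gt, comb_gt]
    have h1 : ((128 * lines k i' : ℕ) : ℚ) * ((2 * j * (3 + slope k i') + t + g i') / 128)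
        = ((2 * j : ℕ) : ℚ) * ((lines k i' : ℚ) * slope k i')
          + (((6 * j + t) * lines k i' : ℕ) : ℚ) + (lines k i' : ℚ) * g i' := by
      push_cast; ring
    rw [h1]
    exact N_add (N_add (N_mul (N_cast _) (part3 k i')) (N_cast _)) (hg i')

lemma one_N (k : ℕ) : ∀ i, N ((lines k i : ℚ) * (1 : ℕ → ℚ) i) := by
  intro i
  rw [Pi.one_apply, mul_one]
  exact N_cast _

lemma zero_N (k : ℕ) : ∀ i, N ((lines k i : ℚ) * (0 : ℕ → ℚ) i) := by
  intro i
  rw [Pi.zero_apply, mul_zero]
  exact N_zero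

lemma r0_N (k : ℕ) : N ((384 : ℚ) ^ k * 0) := by
  rw [mul_zero]
  exact N_zero

lemma r1_N (k : ℕ) : N ((384 : ℚ) ^ k * 1) := ⟨384 ^ k, by push_cast; ring⟩

lemma rw_N (hm : ClaimWeight) (k : ℕ) (h : ℕ → ℚ) (h1 : ∀ i, h i ≤ 1)
    (hN : ∀ i, N ((lines k i : ℚ) * h i)) : N ((384 : ℚ) ^ k * (1 - weight k h)) := by
  have h2 : weight k h ≤ 1 := by
    have h3 := hm.1 k h 1 (fun i => h1 i)
    rwa [(hm.2.1 k).2] at h3
  rw [mul_sub]
  refine N_sub (r1_N k) ?_ ?_
  · rw [part2]
    exact N_sum (fun i _ => hN i)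
  · exact mul_le_mul_of_nonneg_left h2 (by positivity)

lemma part4 (hw : ClaimWindow) (hm : ClaimWeight) (k : ℕ) :
    ∀ (b : Bool) (j : ℕ), j < 3 → ∀ h ∈ pass k b j, ∀ i, N ((lines k i : ℚ) * h i) := by
  induction k with
  | zero =>
    intro b j _ h hh
    cases b
    · simp only [pass, List.mem_cons, List.not_mem_nil, or_false] at hh
      rcases hh with rfl | rfl
      · exact one_N 0
      · exact zero_N 0
    · simp only [pass, List.mem_cons, List.not_mem_nil, or_false] at hh
      rcases hh with rfl | rfl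
      · exact zero_N 0
      · exact one_N 0
  | succ k ih =>
    intro b j _ h hh
    have hr : ∀ (b : Bool) (j : ℕ), j < 3 → ∀ h ∈ pass k b j,
        N ((384 : ℚ) ^ k * (1 - weight k h)) := fun b j hj h hh =>
      rw_N hm k h (fun i => ((hw k b j hj h hh).1 i).2) (ih b j hj h hh)
    cases b
    · simp only [pass, unitD, List.mem_append, List.mem_cons, List.not_mem_nil, or_false,
        List.mem_flatMap, List.mem_map, List.mem_reverse] at hh
      rcases hh with rfl | ⟨t, _, ⟨h', hh', rfl⟩ | ⟨h', hh', rfl⟩ | ⟨h', hh', rfl⟩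
        | ⟨h', hh', rfl⟩⟩ | rfl
      · exact one_N _
      · exact emb_N k j t _ _ _ (ih _ _ (by norm_num) h' hh') (r1_N k) (one_N k)
      · exact emb_N k j t _ _ _ (zero_N k) (r1_N k) (ih _ _ (by norm_num) h' hh')
      · exact emb_N k j t _ _ _ (zero_N k) (hr _ _ (by norm_num) h' hh')
          (ih _ _ (by norm_num) h' hh')
      · exact emb_N k j t _ _ _ (zero_N k) (r0_N k) (ih _ _ (by norm_num) h' hh')
      · exact zero_N _
    · simp only [pass, unitU, List.mem_append, List.mem_cons, List.not_mem_nil, or_false,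
        List.mem_flatMap, List.mem_map] at hh
      rcases hh with rfl | ⟨t, _, ⟨h', hh', rfl⟩ | ⟨h', hh', rfl⟩ | ⟨h', hh', rfl⟩
        | ⟨h', hh', rfl⟩⟩ | rfl
      · exact zero_N _
      · exact emb_N k j t _ _ _ (zero_N k) (r0_N k) (ih _ _ (by norm_num) h' hh')
      · exact emb_N k j t _ _ _ (ih _ _ (by norm_num) h' hh') (r0_N k) (one_N k)
      · exact emb_N k j t _ _ _ (ih _ _ (by norm_num) h' hh') (hr _ _ (by norm_num) h' hh')
          (one_N k)
      · exact emb_N k j t _ _ _ (ih _ _ (by norm_num) h' hh') (r1_N k) (one_N k)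
      · exact one_N _

end LinesProof

open LinesProof in
theorem claimLines (hw : ClaimWindow) (hm : ClaimWeight) : ClaimLines :=
  ⟨part1, part2, part3, part4 hw hm⟩

end Pool.Agent.Work.MP_e17eac_co.PL
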