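import Pool.Agent.Work.MP_e17eac_co.PL.Rec

set_option autoImplicit false

/-!
# The lower bound: numerics
-/

namespace Pool.Agent.Work.MP_e17eac_co.PL

theorem claimLower (h : ClaimPow) : ClaimLower := by
  obtain ⟨K, hK⟩ := pow_unbounded_of_one_lt ((768 : ℝ) ^ 41) (by norm_num : (1 : ℝ) < 6 / 5)
  refine ⟨2 * 384 ^ K, fun n hn he => ?_⟩
  obtain ⟨m, hm⟩ := he
  have hm1 : 384 ^ K ≤ m := by omega
  have hm0 : m ≠ 0 := by
    have : 0 < 384 ^ K := by positivity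
    omega
  obtain ⟨k, hk⟩ : ∃ k, k = Nat.log 384 m := ⟨_, rfl⟩
  have hKk : K ≤ k := by
    rw [hk]
    exact Nat.le_log_of_pow_le (by norm_num) hm1
  have hlo : 384 ^ k ≤ m := by
    rw [hk]
    exact Nat.pow_log_le_self 384 hm0
  have hhi : m < 384 ^ (k + 1) := by
    rw [hk]
    exact Nat.lt_pow_succ_log_self (by norm_num) m
  obtain ⟨A, hA⟩ := h k n ⟨m, hm⟩ (by omega)
  refine ⟨A, le_trans ?_ (by exact_mod_cast hA : ((448 : ℝ) ^ k) ≤ (A.halvingSwaps : ℝ))⟩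
  have h1 : (n : ℝ) ≤ 768 * 384 ^ k := by
    have h2 : n ≤ 768 * 384 ^ k := by
      rw [pow_succ] at hhi
      omega
    exact_mod_cast h2
  have hn0 : (0 : ℝ) ≤ n := Nat.cast_nonneg n
  have h3 : (n : ℝ) ^ 41 ≤ ((448 : ℝ) ^ k) ^ 40 := by
    calc (n : ℝ) ^ 41 ≤ (768 * 384 ^ k) ^ 41 := pow_le_pow_left₀ hn0 h1 41
      _ = 768 ^ 41 * (384 ^ 41) ^ k := by
          rw [mul_pow, ← pow_mul, ← pow_mul, mul_comm k 41]
      _ ≤ (6 / 5) ^ k * (384 ^ 41) ^ k := by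
          refine mul_le_mul_of_nonneg_right ?_ (by positivity)
          exact hK.le.trans (pow_le_pow_right₀ (by norm_num) hKk)
      _ = (6 / 5 * 384 ^ 41) ^ k := by rw [mul_pow]
      _ ≤ (448 ^ 40) ^ k := pow_le_pow_left₀ (by positivity) (by norm_num) k
      _ = ((448 : ℝ) ^ k) ^ 40 := by rw [← pow_mul, ← pow_mul, mul_comm k 40]
  have h4 : (n : ℝ) ^ ((1 : ℝ) + 1 / 40) = ((n : ℝ) ^ 41) ^ ((1 : ℝ) / 40) := by
    rw [← Real.rpow_natCast (n : ℝ) 41, ← Real.rpow_mul hn0]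
    norm_num
  have h5 : (((448 : ℝ) ^ k) ^ 40) ^ ((1 : ℝ) / 40) = (448 : ℝ) ^ k := by
    rw [← Real.rpow_natCast ((448 : ℝ) ^ k) 40, ← Real.rpow_mul (by positivity)]
    norm_num
  rw [h4, ← h5]
  exact Real.rpow_le_rpow (by positivity) h3 (by norm_num)

end Pool.Agent.Work.MP_e17eac_co.PL
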