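import Pool.Agent.Work.MP_e17eac_co.PL.Rec

set_option autoImplicit false

/-!
# From the recursive construction to allowable sequences
-/

namespace Pool.Agent.Work.MP_e17eac_co.PL

namespace PowAux

theorem lines_pos : ∀ (k i : ℕ), i < numC k → 0 < lines k i := by
  intro k
  induction k with
  | zero =>
    intro i _
    show 0 < 1
    norm_num
  | succ k ih =>
    intro i hi
    have hn : numC (k + 1) = 2 * numC k + 1 := rfl
    rw [hn] at hi
    show 0 < comb (numC k) (fun i => 128 * lines k i) (128 * 384 ^ k) (fun i => 128 * lines k i) i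
    unfold comb
    split_ifs with h1 h2
    · have := ih i h1
      positivity
    · positivity
    · have := ih (i - numC k - 1) (by omega)
      positivity

theorem chg_eq (k : ℕ) : ∀ l : List (ℕ → ℚ), chg k l =
    ∑ t ∈ Finset.range (l.length - 1),
      if ∀ i ∈ Finset.range (numC k), l.getD t 0 i = l.getD (t + 1) 0 i then 0 else 1 := by
  intro l
  induction l with
  | nil => rfl
  | cons a l ih =>
    cases l with
    | nil => rfl
    | cons b l =>
      have h1 : (a :: b :: l).length - 1 = ((b :: l).length - 1) + 1 := by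
        simp
      rw [h1, Finset.sum_range_succ']
      rw [chg, ih, add_comm]
      rfl

/-- the number of lines of the class `c` -/
def size (k d : ℕ) (c : ℕ) : ℕ :=
  if c = 0 then d else if c = 1 then 384 ^ k else if c < numC k + 2 then lines k (c - 2) else d

/-- the number of lines of the class `c` below the level in the state `h` -/
def cnt (k d : ℕ) (h : ℕ → ℚ) (c : ℕ) : ℕ :=
  if c = 0 then d else if c = 1 then ⌊(384 : ℚ) ^ k * (1 - weight k h)⌋₊ else
    if c < numC k + 2 then ⌊(lines k (c - 2) : ℚ) * h (c - 2)⌋₊ else 0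

theorem sum_split (N : ℕ) (f : ℕ → ℕ) :
    ∑ c ∈ Finset.range (N + 3), f c =
      (∑ i ∈ Finset.range N, f (i + 2)) + f 1 + f 0 + f (N + 2) := by
  rw [Finset.sum_range_succ, Finset.sum_range_succ', Finset.sum_range_succ']

theorem sum_size (k d : ℕ) (h1 : ∑ i ∈ Finset.range (numC k), lines k i = 384 ^ k) :
    ∑ c ∈ Finset.range (numC k + 3), size k d c = 2 * (d + 384 ^ k) := by
  rw [sum_split]
  have h2 : ∑ i ∈ Finset.range (numC k), size k d (i + 2) =
      ∑ i ∈ Finset.range (numC k), lines k i := by
    refine Finset.sum_congr rfl fun i hi => ?_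
    have hi' : i < numC k := Finset.mem_range.1 hi
    unfold size
    rw [if_neg (by omega), if_neg (by omega), if_pos (by omega)]
    rfl
  have h3 : size k d 1 = 384 ^ k := by
    unfold size
    rw [if_neg (by omega), if_pos rfl]
  have h4 : size k d 0 = d := by
    unfold size
    rw [if_pos rfl]
  have h5 : size k d (numC k + 2) = d := by
    unfold size
    rw [if_neg (by omega), if_neg (by omega), if_neg (by omega)]
  rw [h2, h1, h3, h4, h5]
  ring

theorem cnt_src (k d : ℕ) (h : ℕ → ℚ)
    (hs : ∑ i ∈ Finset.range (numC k), lines k i = 384 ^ k)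
    (hw : (384 : ℚ) ^ k * weight k h = ∑ i ∈ Finset.range (numC k), (lines k i : ℚ) * h i)
    (h01 : ∀ i, 0 ≤ h i ∧ h i ≤ 1) (hz : ∀ i, ∃ z : ℕ, (lines k i : ℚ) * h i = z) :
    (cnt k d h 1 : ℚ) = (384 : ℚ) ^ k * (1 - weight k h) := by
  choose z hz using hz
  have h1 : (384 : ℚ) ^ k * weight k h = ((∑ i ∈ Finset.range (numC k), z i : ℕ) : ℚ) := by
    rw [hw]
    push_cast
    exact Finset.sum_congr rfl fun i _ => hz i
  have h2 : (∑ i ∈ Finset.range (numC k), z i : ℕ) ≤ 384 ^ k := by
    have h3 : ((∑ i ∈ Finset.range (numC k), z i : ℕ) : ℚ) ≤ ((384 ^ k : ℕ) : ℚ) := by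
      rw [← h1, hw, ← hs]
      push_cast
      refine Finset.sum_le_sum fun i _ => ?_
      have := (h01 i).2
      have h4 : (0 : ℚ) ≤ lines k i := Nat.cast_nonneg _
      nlinarith
    exact_mod_cast h3
  have h5 : (384 : ℚ) ^ k * (1 - weight k h) =
      ((384 ^ k - ∑ i ∈ Finset.range (numC k), z i : ℕ) : ℚ) := by
    rw [Nat.cast_sub h2, mul_sub, h1]
    push_cast
    ring
  unfold cnt
  rw [if_neg (by omega), if_pos rfl, h5, Nat.floor_natCast]

theorem cnt_cls (k d : ℕ) (h : ℕ → ℚ) (hz : ∀ i, ∃ z : ℕ, (lines k i : ℚ) * h i = z) (i : ℕ)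
    (hi : i < numC k) : (cnt k d h (i + 2) : ℚ) = (lines k i : ℚ) * h i := by
  obtain ⟨z, hz⟩ := hz i
  unfold cnt
  rw [if_neg (by omega), if_neg (by omega), if_pos (by omega)]
  have e : i + 2 - 2 = i := rfl
  rw [e, hz, Nat.floor_natCast]

theorem cnt_zero (k d : ℕ) (h : ℕ → ℚ) : cnt k d h 0 = d := by
  unfold cnt
  rw [if_pos rfl]

theorem cnt_last (k d : ℕ) (h : ℕ → ℚ) : cnt k d h (numC k + 2) = 0 := by
  unfold cnt
  rw [if_neg (by omega), if_neg (by omega), if_neg (by omega)]

end PowAux

open PowAux in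
theorem claimPow (h : ClaimStates) (hw : ClaimWindow) (hm : ClaimWeight) (hr : ClaimRel)
    (hl : ClaimLines) (hc : ClaimChg) : ClaimPow := by
  intro k n he hn
  obtain ⟨M, hM⟩ := he
  obtain ⟨d, hd⟩ : ∃ d, M = d + 384 ^ k := ⟨M - 384 ^ k, by omega⟩
  have hpow : 0 < 384 ^ k := by positivity
  obtain ⟨l1, l2, -, l4⟩ := hl
  obtain ⟨S, hS⟩ : ∃ S, S = pass k true 0 := ⟨_, rfl⟩
  have hlen : S ≠ [] := by
    rw [hS]
    cases k with
    | zero => simp [pass]
    | succ k => simp [pass]
  have hlen' : 0 < S.length := List.length_pos_iff.2 hlen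
  obtain ⟨m, hm'⟩ : ∃ m, S.length = m + 1 := ⟨S.length - 1, by omega⟩
  obtain ⟨st, hst⟩ : ∃ st : ℕ → ℕ → ℚ, st = fun t => S.getD t 0 := ⟨_, rfl⟩
  have hget : ∀ t (ht : t < S.length), st t = S[t] := by
    intro t ht
    rw [hst]
    exact List.getD_eq_getElem _ _ ht
  have hmem : ∀ t ≤ m, st t ∈ pass k true 0 := by
    intro t ht
    rw [hget t (by omega), ← hS]
    exact List.getElem_mem _
  have h01 : ∀ t ≤ m, ∀ i, 0 ≤ st t i ∧ st t i ≤ 1 := fun t ht =>
    (hw k true 0 (by norm_num) (st t) (hmem t ht)).1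
  have hz : ∀ t ≤ m, ∀ i, ∃ z : ℕ, (lines k i : ℚ) * st t i = z := fun t ht =>
    l4 k true 0 (by norm_num) (st t) (hmem t ht)
  have hsrc : ∀ t ≤ m, (cnt k d (st t) 1 : ℚ) = (384 : ℚ) ^ k * (1 - weight k (st t)) :=
    fun t ht => cnt_src k d (st t) (l1 k) (l2 k (st t)) (h01 t ht) (hz t ht)
  have hcls : ∀ t ≤ m, ∀ i < numC k, (cnt k d (st t) (i + 2) : ℚ) = (lines k i : ℚ) * st t i :=
    fun t ht i hi => cnt_cls k d (st t) (hz t ht) i hi
  have hcases : ∀ c, c < numC k + 3 → c = 0 ∨ c = 1 ∨ (∃ i < numC k, c = i + 2) ∨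
      c = numC k + 2 := by
    intro c hc
    by_cases h0 : c = 0
    · exact Or.inl h0
    by_cases h1 : c = 1
    · exact Or.inr (Or.inl h1)
    by_cases h2 : c = numC k + 2
    · exact Or.inr (Or.inr (Or.inr h2))
    · exact Or.inr (Or.inr (Or.inl ⟨c - 2, by omega, by omega⟩))
  obtain ⟨A, hA⟩ := h (numC k + 3) M m n (size k d) (fun t c => cnt k d (st t) c) (by omega)
    (by rw [sum_size k d (l1 k)]; omega)
    (by
      intro t ht c hc
      show cnt k d (st t) c ≤ size k d c
      rcases hcases c hc with rfl | rfl | ⟨i, hi, rfl⟩ | rfl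
      · rw [cnt_zero]
        unfold size
        rw [if_pos rfl]
      · have h1 : size k d 1 = 384 ^ k := by
          unfold size
          rw [if_neg (by omega), if_pos rfl]
        rw [h1]
        have h2 : (cnt k d (st t) 1 : ℚ) ≤ ((384 ^ k : ℕ) : ℚ) := by
          rw [hsrc t ht]
          have h3 : (0 : ℚ) ≤ (384 : ℚ) ^ k * weight k (st t) := by
            rw [l2]
            exact Finset.sum_nonneg fun i _ => mul_nonneg (Nat.cast_nonneg _) (h01 t ht i).1
          push_cast
          linarith
        exact_mod_cast h2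
      · have h1 : size k d (i + 2) = lines k i := by
          unfold size
          rw [if_neg (by omega), if_neg (by omega), if_pos (by omega)]
          rfl
        rw [h1]
        have h2 : (cnt k d (st t) (i + 2) : ℚ) ≤ (lines k i : ℚ) := by
          rw [hcls t ht i hi]
          have h4 : (0 : ℚ) ≤ lines k i := Nat.cast_nonneg _
          have := (h01 t ht i).2
          nlinarith
        exact_mod_cast h2
      · rw [cnt_last]
        exact Nat.zero_le _)
    (by
      intro t ht
      show ∑ c ∈ Finset.range (numC k + 3), cnt k d (st t) c = M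
      rw [sum_split, cnt_zero, cnt_last]
      have h1 : ((∑ i ∈ Finset.range (numC k), cnt k d (st t) (i + 2) + cnt k d (st t) 1 + d + 0 :
          ℕ) : ℚ) = (M : ℚ) := by
        push_cast
        rw [hsrc t ht, Finset.sum_congr rfl fun i hi => hcls t ht i (Finset.mem_range.1 hi),
          ← l2, hd]
        push_cast
        ring
      exact_mod_cast h1)
    (by
      intro t t' htt ht' c c' hcc hc'
      rintro ⟨a1, a2⟩
      replace a1 : cnt k d (st t) c < cnt k d (st t') c := a1
      replace a2 : cnt k d (st t') c' < cnt k d (st t) c' := a2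
      have hlt : t < t' := by
        rcases Nat.lt_or_ge t t' with h | h
        · exact h
        · have e : t = t' := by omega
          rw [e] at a1
          exact absurd a1 (lt_irrefl _)
      have a1' : (cnt k d (st t) c : ℚ) < cnt k d (st t') c := by exact_mod_cast a1
      have a2' : (cnt k d (st t') c' : ℚ) < cnt k d (st t) c' := by exact_mod_cast a2
      have ht : t ≤ m := by omega
      rcases hcases c (by omega) with rfl | rfl | ⟨i, hi, rfl⟩ | rfl
      · rw [cnt_zero, cnt_zero] at a1
        exact absurd a1 (lt_irrefl _)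
      · rw [hsrc t ht, hsrc t' ht'] at a1'
        have h1 := List.pairwise_iff_getElem.1 (hm.2.2 k 0 (by norm_num)).1 t t'
          (by rw [← hS]; omega) (by rw [← hS]; omega) hlt
        have e1 : st t = (pass k true 0)[t]'(by rw [← hS]; omega) := by
          rw [hget t (by omega)]
          simp only [hS]
        have e2 : st t' = (pass k true 0)[t']'(by rw [← hS]; omega) := by
          rw [hget t' (by omega)]
          simp only [hS]
        rw [← e1, ← e2] at h1
        have h2 : (0 : ℚ) < (384 : ℚ) ^ k := by positivity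
        nlinarith
      · rcases hcases c' hc' with rfl | rfl | ⟨i', hi', rfl⟩ | rfl
        · omega
        · omega
        · rw [hcls t ht i hi, hcls t' ht' i hi] at a1'
          rw [hcls t ht i' hi', hcls t' ht' i' hi'] at a2'
          have h1 := List.pairwise_iff_getElem.1 (hr k true 0 (by norm_num)).1 t t'
            (by rw [← hS]; omega) (by rw [← hS]; omega) hlt
          have e1 : st t = (pass k true 0)[t]'(by rw [← hS]; omega) := by
            rw [hget t (by omega)]
            simp only [hS]
          have e2 : st t' = (pass k true 0)[t']'(by rw [← hS]; omega) := by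
            rw [hget t' (by omega)]
            simp only [hS]
          rw [← e1, ← e2] at h1
          exact h1 i i' (by omega) ⟨lt_of_mul_lt_mul_left a1' (Nat.cast_nonneg _),
            lt_of_mul_lt_mul_left a2' (Nat.cast_nonneg _)⟩
        · rw [cnt_last, cnt_last] at a2
          exact absurd a2 (lt_irrefl _)
      · omega)
  refine ⟨A, ?_⟩
  have hM2 : n / 2 = M := by omega
  unfold AllowableSeq.halvingSwaps
  rw [hM2]
  refine ((hc k true 0).trans ?_).trans hA
  rw [← hS, chg_eq, hm', Nat.add_sub_cancel]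
  classical
  have e : {t : ℕ | t < m ∧ ∃ c < numC k + 3, cnt k d (st t) c ≠ cnt k d (st (t + 1)) c} =
      (((Finset.range m).filter fun t => ∃ c < numC k + 3,
        cnt k d (st t) c ≠ cnt k d (st (t + 1)) c : Finset ℕ) : Set ℕ) := by
    ext t
    simp
  rw [e, Set.ncard_coe_finset, Finset.card_filter]
  refine Finset.sum_le_sum fun t ht => ?_
  have htm : t < m := Finset.mem_range.1 ht
  by_cases hd : ∀ i ∈ Finset.range (numC k), S.getD t 0 i = S.getD (t + 1) 0 i
  · rw [if_pos hd]
    exact Nat.zero_le _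
  · rw [if_neg hd]
    rw [if_pos]
    push Not at hd
    obtain ⟨i, hi, hne⟩ := hd
    have hi' : i < numC k := Finset.mem_range.1 hi
    refine ⟨i + 2, by omega, fun he => ?_⟩
    have h1 : (cnt k d (st t) (i + 2) : ℚ) = cnt k d (st (t + 1)) (i + 2) := by rw [he]
    rw [hcls t (by omega) i hi', hcls (t + 1) (by omega) i hi'] at h1
    have h2 : (lines k i : ℚ) ≠ 0 := by
      have := lines_pos k i hi'
      positivity
    apply hne
    have h3 := mul_left_cancel₀ h2 h1
    rw [hst] at h3
    exact h3

end Pool.Agent.Work.MP_e17eac_co.PL
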