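import Pool.Agent.Work.MP_e17eac_co.PL.Defs
import Pool.Agent.Work.MP_e17eac_co.Halving

set_option autoImplicit false

namespace Pool.Agent.Work.MP_e17eac_co.PL

/-- Point sets give allowable sequences: the number of halving lines of a point set in general
position is at most the number of halving swaps of some allowable sequence. -/
def ClaimPts : Prop :=
  ∀ P : Finset (ℝ × ℝ), Even P.card → 2 ≤ P.card → GeneralPosition P →
    ∃ A : AllowableSeq P.card, (bisectors P).ncard ≤ A.halvingSwaps

end Pool.Agent.Work.MP_e17eac_co.PL
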