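import Pool.Agent.Work.MP_e17eac_co.PL.Pts

/-!
# Halving lines of point sets and halving swaps
-/

set_option autoImplicit false

namespace Pool.Agent.Work.MP_e17eac_co.PL

namespace PtsAux

open Finset

/-- Lexicographically positive vectors. -/
def Lp (d : ℝ × ℝ) : Prop := 0 < d.1 ∨ (d.1 = 0 ∧ 0 < d.2)

theorem lt_iff {p q : ℝ × ℝ} : toLex p < toLex q ↔ Lp (q - p) := by
  rw [Prod.Lex.toLex_lt_toLex]
  unfold Lp
  simp only [Prod.fst_sub, Prod.snd_sub, sub_pos]
  constructor
  · rintro (h | ⟨h1, h2⟩)
    · exact Or.inl h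
    · exact Or.inr ⟨by linarith, h2⟩
  · rintro (h | ⟨h1, h2⟩)
    · exact Or.inl h
    · exact Or.inr ⟨by linarith, h2⟩

/-- The cross product. -/
def cr (d e : ℝ × ℝ) : ℝ := d.1 * e.2 - d.2 * e.1

theorem sep1 {d e v : ℝ × ℝ} (hd : Lp d) (he : Lp e) (hde : 0 < cr d e) (h1 : 0 ≤ cr d v)
    (h2 : cr e v ≤ 0) (hv : v ≠ 0) : Lp v := by
  have e1 : cr d e * v.1 = (-cr e v) * d.1 + cr d v * e.1 := by unfold cr; ring
  have e2 : cr d e * v.2 = (-cr e v) * d.2 + cr d v * e.2 := by unfold cr; ring
  have hd0 : 0 ≤ d.1 := by rcases hd with h | h <;> linarith [h]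
  have he0 : 0 ≤ e.1 := by rcases he with h | h <;> linarith [h]
  have h2' : 0 ≤ -cr e v := by linarith
  have hv1 : 0 ≤ v.1 := by
    have h3 : 0 ≤ cr d e * v.1 := by
      rw [e1]; exact add_nonneg (mul_nonneg h2' hd0) (mul_nonneg h1 he0)
    exact nonneg_of_mul_nonneg_right h3 hde
  rcases hv1.lt_or_eq with h | h
  · exact Or.inl h
  · right
    refine ⟨h.symm, ?_⟩
    rw [← h, mul_zero] at e1
    have hd1 : 0 < d.1 := by
      rcases hd with h3 | ⟨h3, h4⟩
      · exact h3
      · exfalso
        unfold cr at hde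
        rw [h3] at hde
        have := mul_nonneg h4.le he0
        linarith
    have t1 : 0 ≤ (-cr e v) * d.1 := mul_nonneg h2' hd0
    have t2 : 0 ≤ cr d v * e.1 := mul_nonneg h1 he0
    have t3 : (-cr e v) * d.1 = 0 := by linarith
    have t4 : cr d v * e.1 = 0 := by linarith
    have t5 : -cr e v = 0 := (mul_eq_zero.1 t3).resolve_right hd1.ne'
    rw [t5, zero_mul, zero_add] at e2
    have t6 : cr d v ≠ 0 := by
      intro h3
      rw [h3, zero_mul] at e2
      have h4 : v.2 = 0 := (mul_eq_zero.1 e2).resolve_left hde.ne'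
      exact hv (Prod.ext h.symm h4)
    have t7 : e.1 = 0 := (mul_eq_zero.1 t4).resolve_left t6
    have he2 : 0 < e.2 := by
      rcases he with h3 | h3
      · exact absurd t7 h3.ne'
      · exact h3.2
    have t8 : 0 < cr d e * v.2 := by
      rw [e2]
      exact mul_pos (lt_of_le_of_ne h1 (Ne.symm t6)) he2
    exact (mul_pos_iff_of_pos_left hde).1 t8

/-- The slope. -/
noncomputable def slp (d : ℝ × ℝ) : WithTop ℝ :=
  if d.1 = 0 then ⊤ else ((d.2 / d.1 : ℝ) : WithTop ℝ)

theorem cr_pos_of_slope {d e : ℝ × ℝ} (hd : Lp d) (he : Lp e) (h : slp d < slp e) :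
    0 < cr d e := by
  unfold slp at h
  unfold cr
  by_cases hd0 : d.1 = 0
  · rw [if_pos hd0] at h
    exact absurd h not_top_lt
  · rw [if_neg hd0] at h
    have hd1 : 0 < d.1 := by
      rcases hd with h3 | h3
      · exact h3
      · exact absurd h3.1 hd0
    by_cases he0 : e.1 = 0
    · have he2 : 0 < e.2 := by
        rcases he with h3 | h3
        · exact absurd he0 h3.ne'
        · exact h3.2
      rw [he0, mul_zero, sub_zero]
      exact mul_pos hd1 he2
    · rw [if_neg he0] at h
      have he1 : 0 < e.1 := by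
        rcases he with h3 | h3
        · exact h3
        · exact absurd h3.1 he0
      have h4 : d.2 / d.1 < e.2 / e.1 := by exact_mod_cast h
      rw [div_lt_div_iff₀ hd1 he1] at h4
      linarith

theorem cr_zero_of_slope {d e : ℝ × ℝ} (h : slp d = slp e) : cr d e = 0 := by
  unfold slp at h
  unfold cr
  by_cases hd0 : d.1 = 0
  · rw [if_pos hd0] at h
    by_cases he0 : e.1 = 0
    · rw [hd0, he0]; ring
    · rw [if_neg he0] at h
      exact absurd h (WithTop.top_ne_coe)
  · rw [if_neg hd0] at h
    by_cases he0 : e.1 = 0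
    · rw [if_pos he0] at h
      exact absurd h (WithTop.coe_ne_top)
    · rw [if_neg he0] at h
      have h4 : d.2 / d.1 = e.2 / e.1 := by exact_mod_cast h
      rw [div_eq_div_iff hd0 he0] at h4
      linarith

theorem scalar {d e : ℝ × ℝ} (hd : Lp d) (he : Lp e) (h : cr d e = 0) :
    ∃ l : ℝ, 0 < l ∧ e.1 = l * d.1 ∧ e.2 = l * d.2 := by
  unfold cr at h
  rcases hd with hd | ⟨hd1, hd2⟩
  · have he1 : 0 < e.1 := by
      rcases he with h3 | ⟨h3, h4⟩
      · exact h3
      · exfalso
        rw [h3, mul_zero, sub_zero] at h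
        have := mul_pos hd h4
        linarith
    refine ⟨e.1 / d.1, div_pos he1 hd, by field_simp, ?_⟩
    field_simp
    linarith
  · rw [hd1, zero_mul, zero_sub, neg_eq_zero] at h
    have he1 : e.1 = 0 := (mul_eq_zero.1 h).resolve_left hd2.ne'
    have he2 : 0 < e.2 := by
      rcases he with h3 | h3
      · exact absurd he1 h3.ne'
      · exact h3.2
    refine ⟨e.2 / d.2, div_pos he2 hd2, by rw [he1, hd1, mul_zero], by field_simp⟩

theorem side_eq (p q r s : ℝ × ℝ) : side p q s - side p q r = cr (q - p) (s - r) := by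
  unfold side cr
  simp only [Prod.fst_sub, Prod.snd_sub]
  ring

open Classical in
/-- Halving lines are not parallel. -/
theorem noPar {P : Finset (ℝ × ℝ)} (hgp : GeneralPosition P) {p q p' q' : ℝ × ℝ}
    (h : IsHalving P p q) (h' : IsHalving P p' q') (hlt : toLex p < toLex q)
    (hlt' : toLex p' < toLex q') (hcr : cr (q - p) (q' - p') = 0) :
    affineSpan ℝ {p, q} = affineSpan ℝ ({p', q'} : Set (ℝ × ℝ)) := by
  obtain ⟨hp, hq, hpq, h1, h2⟩ := h
  obtain ⟨hp', hq', hpq', h1', h2'⟩ := h'
  obtain ⟨l, hl, hl1, hl2⟩ := scalar (lt_iff.1 hlt) (lt_iff.1 hlt') hcr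
  have hside : ∀ r, side p' q' r = l * (side p q r - side p q p') := by
    intro r
    have e1 := side_eq p' q' p' r
    rw [side_self_left, sub_zero] at e1
    rw [e1, side_eq]
    unfold cr
    rw [hl1, hl2]
    ring
  rw [ncard_eq_filter] at h1 h2 h1' h2'
  rcases lt_trichotomy (side p q p') 0 with hc | hc | hc
  · exfalso
    have hsub : insert p (insert q (P.filter (fun r => 0 < side p q r))) ⊆
        P.filter (fun r => 0 < side p' q' r) := by
      intro r hr
      rw [mem_insert, mem_insert, mem_filter] at hr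
      rw [mem_filter, hside]
      rcases hr with rfl | rfl | ⟨hr, hr2⟩
      · exact ⟨hp, mul_pos hl (by rw [side_self_left]; linarith)⟩
      · exact ⟨hq, mul_pos hl (by rw [side_self_right]; linarith)⟩
      · exact ⟨hr, mul_pos hl (by linarith)⟩
    have h3 := card_le_card hsub
    rw [card_insert_of_notMem, card_insert_of_notMem] at h3
    · omega
    · rw [mem_filter, side_self_right]
      exact fun h => lt_irrefl _ h.2
    · rw [mem_insert, mem_filter, side_self_left]
      rintro (h | h)
      · exact hpq h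
      · exact lt_irrefl _ h.2
  · have hmem : ∀ r ∈ P, side p q r = 0 → r = p ∨ r = q := by
      intro r hr hr0
      by_contra hcon
      push Not at hcon
      exact side_ne_zero hgp hp hq hr hpq (Ne.symm hcon.1) (Ne.symm hcon.2) hr0
    have hq0 : side p q q' = 0 := by
      have e1 := side_eq p q p' q'
      rw [hcr, hc, sub_zero] at e1
      exact e1
    rcases hmem p' hp' hc with rfl | rfl
    · rcases hmem q' hq' hq0 with rfl | rfl
      · exact absurd rfl hpq'
      · rfl
    · rcases hmem q' hq' hq0 with rfl | rfl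
      · rw [Set.pair_comm]
      · exact absurd rfl hpq'
  · exfalso
    have hsub : insert p (insert q (P.filter (fun r => side p q r < 0))) ⊆
        P.filter (fun r => side p' q' r < 0) := by
      intro r hr
      rw [mem_insert, mem_insert, mem_filter] at hr
      rw [mem_filter, hside]
      rcases hr with rfl | rfl | ⟨hr, hr2⟩
      · exact ⟨hp, mul_neg_of_pos_of_neg hl (by rw [side_self_left]; linarith)⟩
      · exact ⟨hq, mul_neg_of_pos_of_neg hl (by rw [side_self_right]; linarith)⟩
      · exact ⟨hr, mul_neg_of_pos_of_neg hl (by linarith)⟩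
    have h3 := card_le_card hsub
    rw [card_insert_of_notMem, card_insert_of_notMem] at h3
    · omega
    · rw [mem_filter, side_self_right]
      exact fun h => lt_irrefl _ h.2
    · rw [mem_insert, mem_filter, side_self_left]
      rintro (h | h)
      · exact hpq h
      · exact lt_irrefl _ h.2

/-- Separation for two halving lines. -/
theorem sep2 {p q p' q' a b : ℝ × ℝ} (hlt : toLex p < toLex q) (hlt' : toLex p' < toLex q')
    (hs : slp (q - p) < slp (q' - p')) (ha : side p q a ≤ 0) (hb : 0 ≤ side p q b)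
    (ha' : 0 ≤ side p' q' a) (hb' : side p' q' b ≤ 0) (hab : a ≠ b) : toLex a < toLex b := by
  have hd := lt_iff.1 hlt
  have he := lt_iff.1 hlt'
  have hc := cr_pos_of_slope hd he hs
  apply lt_iff.2
  apply sep1 hd he hc
  · rw [← side_eq]; linarith
  · rw [← side_eq]; linarith
  · exact sub_ne_zero.2 (Ne.symm hab)

/-- The point which is added. -/
noncomputable def pt (E : ℕ → (ℝ × ℝ) × (ℝ × ℝ)) (t : ℕ) : ℝ × ℝ :=
  if t % 2 = 0 then (E (t / 2)).1 else (E (t / 2)).2

end PtsAux

open PtsAux Finset in
theorem claimPts (h : ClaimSets) : ClaimPts := by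
  classical
  intro P hev h2 hgp
  set n := P.card with hn
  have hM1 : 1 ≤ n / 2 := by omega
  -- numbering of the points
  have hcardP : (P.map toLex.toEmbedding).card = n := card_map _
  set φ' := (P.map toLex.toEmbedding).orderEmbOfFin hcardP with hφ'
  set φ : Fin n → ℝ × ℝ := fun j => ofLex (φ' j) with hφ
  have hφP : ∀ j, φ j ∈ P := by
    intro j
    have := orderEmbOfFin_mem (P.map toLex.toEmbedding) hcardP j
    rw [mem_map] at this
    obtain ⟨p, hp, hp2⟩ := this
    have : φ j = p := by
      rw [hφ, hφ']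
      simp only
      rw [← hp2]
      rfl
    rw [this]
    exact hp
  have hφinj : Function.Injective φ := by
    intro i j hij
    have : φ' i = φ' j := ofLex.injective hij
    exact φ'.injective this
  have hφsurj : ∀ p ∈ P, ∃ j, φ j = p := by
    intro p hp
    have h1 : toLex p ∈ Set.range φ' := by
      rw [hφ', range_orderEmbOfFin]
      exact mem_coe.2 (mem_map.2 ⟨p, hp, rfl⟩)
    obtain ⟨j, hj⟩ := h1
    refine ⟨j, ?_⟩
    rw [hφ]
    simp only
    rw [hj]
    rfl
  have hφlt : ∀ i j, toLex (φ i) < toLex (φ j) → i < j := by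
    intro i j hij
    exact φ'.lt_iff_lt.1 hij
  -- the halving pairs
  set H := (P ×ˢ P).filter (fun e : (ℝ × ℝ) × (ℝ × ℝ) => IsHalving P e.1 e.2 ∧
    toLex e.1 < toLex e.2) with hH
  set K := H.image (fun e => slp (e.2 - e.1)) with hK
  have hE : ∀ i : ℕ, ∃ e : (ℝ × ℝ) × (ℝ × ℝ), ∀ hi : i < K.card,
      e ∈ H ∧ slp (e.2 - e.1) = K.orderEmbOfFin rfl ⟨i, hi⟩ := by
    intro i
    by_cases hi : i < K.card
    · have := orderEmbOfFin_mem K rfl ⟨i, hi⟩
      obtain ⟨e, he, he2⟩ := mem_image.1 this
      exact ⟨e, fun _ => ⟨he, he2⟩⟩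
    · exact ⟨((0, 0), (0, 0)), fun hi' => absurd hi' hi⟩
  choose E hE using hE
  have hEH : ∀ i, i < K.card → IsHalving P (E i).1 (E i).2 ∧ toLex (E i).1 < toLex (E i).2 := by
    intro i hi
    have := (hE i hi).1
    rw [hH, mem_filter] at this
    exact this.2
  have hEs : ∀ i j, i < j → j < K.card → slp ((E i).2 - (E i).1) < slp ((E j).2 - (E j).1) := by
    intro i j hij hj
    rw [(hE i (hij.trans hj)).2, (hE j hj).2]
    exact (K.orderEmbOfFin rfl).lt_iff_lt.2 hij
  -- the number of bisectors
  have hbis : (bisectors P).ncard ≤ K.card := by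
    have hsub : bisectors P ⊆ ↑((range K.card).image
        (fun i => affineSpan ℝ ({(E i).1, (E i).2} : Set (ℝ × ℝ)))) := by
      rintro l ⟨p, q, hpq, rfl⟩
      have key : ∀ p q, IsHalving P p q → toLex p < toLex q → affineSpan ℝ {p, q} ∈
          (↑((range K.card).image (fun i => affineSpan ℝ ({(E i).1, (E i).2} : Set (ℝ × ℝ)))) :
            Set (AffineSubspace ℝ (ℝ × ℝ))) := by
        intro p q hpq hlt
        have h1 : slp (q - p) ∈ K := by
          rw [hK, mem_image]
          exact ⟨(p, q), by rw [hH, mem_filter, mem_product]; exact ⟨⟨hpq.1, hpq.2.1⟩, hpq, hlt⟩, rfl⟩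
        have h3 : slp (q - p) ∈ Set.range (K.orderEmbOfFin rfl) := by
          rw [range_orderEmbOfFin]
          exact mem_coe.2 h1
        obtain ⟨i, hi⟩ := h3
        rw [mem_coe, mem_image]
        refine ⟨i, mem_range.2 i.2, ?_⟩
        obtain ⟨h4, h5⟩ := hEH i i.2
        refine noPar hgp h4 hpq h5 hlt ?_
        apply cr_zero_of_slope
        rw [(hE i i.2).2, ← hi]
      have hne : p ≠ q := hpq.2.2.1
      rcases lt_or_gt_of_ne (fun h => hne (toLex.injective h) : toLex p ≠ toLex q) with hlt | hlt
      · exact key p q hpq hlt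
      · rw [Set.pair_comm]
        exact key q p hpq.symm hlt
    refine (Set.ncard_le_ncard hsub (finite_toSet _)).trans ?_
    rw [Set.ncard_coe_finset]
    exact card_image_le.trans (by rw [card_range])
  -- the sets
  set I : ℕ → Finset (Fin n) := fun t => if K.card = 0 then univ.filter (fun j : Fin n => (j : ℕ) < n / 2)
    else univ.filter (fun j => side (E (t / 2)).1 (E (t / 2)).2 (φ j) < 0 ∨ φ j = pt E t) with hI
  have hpt : ∀ t, pt E t = (E (t / 2)).1 ∨ pt E t = (E (t / 2)).2 := by
    intro t
    unfold pt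
    split_ifs
    · exact Or.inl rfl
    · exact Or.inr rfl
  have hside0 : ∀ t, side (E (t / 2)).1 (E (t / 2)).2 (pt E t) = 0 := by
    intro t
    rcases hpt t with h | h <;> rw [h]
    · exact side_self_left _ _
    · exact side_self_right _ _
  have hmI : K.card ≠ 0 → ∀ t j, j ∈ I t ↔ (side (E (t / 2)).1 (E (t / 2)).2 (φ j) < 0 ∨
      φ j = pt E t) := by
    intro h0 t j
    rw [hI]
    simp only [if_neg h0, mem_filter, mem_univ, true_and]
  have hIle : K.card ≠ 0 → ∀ t j, j ∈ I t → side (E (t / 2)).1 (E (t / 2)).2 (φ j) ≤ 0 := by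
    intro h0 t j hj
    rcases (hmI h0 t j).1 hj with h | h
    · exact h.le
    · rw [h, hside0]
  have hInot : K.card ≠ 0 → ∀ t j, j ∉ I t → 0 ≤ side (E (t / 2)).1 (E (t / 2)).2 (φ j) := by
    intro h0 t j hj
    by_contra hc
    exact hj ((hmI h0 t j).2 (Or.inl (not_le.1 hc)))
  have hIcard : ∀ t ≤ 2 * K.card - 1, (I t).card = n / 2 := by
    intro t ht
    by_cases h0 : K.card = 0
    · rw [hI]
      simp only [if_pos h0]
      have h1 : (univ.filter fun j : Fin n => (j : ℕ) < n / 2).image Fin.val = range (n / 2) := by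
        ext x
        simp only [mem_image, mem_filter, mem_univ, true_and, mem_range]
        constructor
        · rintro ⟨e, he, rfl⟩
          exact he
        · intro hx
          exact ⟨⟨x, by omega⟩, hx, rfl⟩
      rw [← card_image_of_injective _ Fin.val_injective, h1, card_range]
    · have hi : t / 2 < K.card := by omega
      obtain ⟨⟨hp, hq, hpq, h1, h3⟩, -⟩ := hEH (t / 2) hi
      rw [ncard_eq_filter] at h3
      have h4 : (I t).image φ = insert (pt E t) (P.filter
          (fun r => side (E (t / 2)).1 (E (t / 2)).2 r < 0)) := by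
        ext r
        rw [mem_image, mem_insert, mem_filter]
        constructor
        · rintro ⟨j, hj, rfl⟩
          rcases (hmI h0 t j).1 hj with h | h
          · exact Or.inr ⟨hφP j, h⟩
          · exact Or.inl h
        · intro hr
          have hrP : r ∈ P := by
            rcases hr with hr | hr
            · rcases hpt t with h | h <;> rw [hr, h]
              · exact hp
              · exact hq
            · exact hr.1
          obtain ⟨j, hj⟩ := hφsurj r hrP
          refine ⟨j, (hmI h0 t j).2 ?_, hj⟩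
          rw [hj]
          rcases hr with hr | hr
          · exact Or.inr hr
          · exact Or.inl hr.2
      rw [← card_image_of_injective _ hφinj, h4, card_insert_of_notMem]
      · exact h3
      · rw [mem_filter, hside0]
        exact fun h => lt_irrefl _ h.2
  have hIsep : ∀ s t, s ≤ t → t ≤ 2 * K.card - 1 → ∀ i ∈ I s, i ∉ I t → ∀ j ∈ I t, j ∉ I s →
      i < j := by
    intro s t hst ht i hi hi' j hj hj'
    have h0 : K.card ≠ 0 := by
      intro h0
      apply hi'
      rw [hI] at hi ⊢
      simp only [if_pos h0] at hi ⊢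
      exact hi
    apply hφlt
    have hne : φ i ≠ φ j := by
      intro h
      have := hφinj h
      subst this
      exact hi' hj
    rcases (Nat.div_le_div_right (c := 2) hst).lt_or_eq with hlt | heq
    · have htK : t / 2 < K.card := by omega
      exact sep2 (hEH _ (hlt.trans htK)).2 (hEH _ htK).2 (hEs _ _ hlt htK) (hIle h0 s i hi)
        (hInot h0 s j hj') (hInot h0 t i hi') (hIle h0 t j hj) hne
    · have h1 := (hmI h0 s i).1 hi
      have h3 := (hmI h0 t j).1 hj
      rw [hmI h0] at hi' hj'
      rw [← heq] at hi' h3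
      push Not at hi' hj'
      have e1 : φ i = pt E s := h1.resolve_left (not_lt.2 hi'.1)
      have e2 : φ j = pt E t := h3.resolve_left (not_lt.2 hj'.1)
      have hsK : s / 2 < K.card := by omega
      have hst' : s ≠ t := by
        rintro rfl
        exact hi'.2 e1
      have hs2 : s % 2 = 0 := by omega
      have ht2 : t % 2 ≠ 0 := by omega
      rw [e1, e2]
      unfold pt
      rw [if_pos hs2, if_neg ht2, ← heq]
      exact (hEH _ hsK).2
  obtain ⟨A, hA⟩ := h n (n / 2) (2 * K.card - 1) I hM1 hIcard hIsep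
  refine ⟨A, hbis.trans (le_trans ?_ hA)⟩
  have himg : ((range K.card).image (fun i => 2 * i)).card = K.card := by
    rw [card_image_of_injective _ (fun a b hab => by simpa using hab), card_range]
  refine le_trans (le_of_eq himg.symm) ?_
  rw [← Set.ncard_coe_finset]
  apply Set.ncard_le_ncard
  · intro t ht
    rw [mem_coe, mem_image] at ht
    obtain ⟨i, hi, rfl⟩ := ht
    rw [mem_range] at hi
    have h0 : K.card ≠ 0 := by omega
    refine ⟨by omega, ?_⟩
    intro heq
    obtain ⟨⟨hp, hq, hpq, h1, h3⟩, -⟩ := hEH i hi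
    obtain ⟨j, hj⟩ := hφsurj _ hp
    have d1 : 2 * i / 2 = i := by omega
    have d2 : (2 * i + 1) / 2 = i := by omega
    have hj1 : j ∈ I (2 * i) := by
      rw [hmI h0]
      right
      rw [hj]
      unfold pt
      rw [if_pos (by omega), d1]
    rw [heq, hmI h0, d2, hj, side_self_left] at hj1
    rcases hj1 with h | h
    · exact lt_irrefl _ h
    · unfold pt at h
      rw [if_neg (by omega), d2] at h
      exact hpq h
  · exact (Set.finite_lt_nat (2 * K.card - 1)).subset fun t ht => ht.1

end Pool.Agent.Work.MP_e17eac_co.PL
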