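import Pool.Agent.Work.MP_e17eac_co.PL.Defs

/-!
# The recursive construction

A bundle of type `k` consists of `numC k` classes of parallel pseudolines; the class `i` has
`lines k i` lines, `384 ^ k` lines in total. A state is a function `h : ℕ → ℚ`: `h i` is the
fraction of the lines of the class `i` which are below the level. `pass k true j` (`j = 0, 1, 2`) is
a list of states leading from `0` to `1` (the bundle gets below the level, lines of a steeper bundle
leave), `pass k false j` leads from `1` to `0`. A bundle of type `k + 1` consists of `128` units, each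
a bundle of type `k`, a bundle of `384 ^ k` parallel lines and another bundle of type `k`; in the
pass number `j` the units of the class `i` are shifted by `2 j` times the slope of the class.
-/

set_option autoImplicit false

namespace Pool.Agent.Work.MP_e17eac_co.PL

/-- The number of classes of a bundle of type `k`. -/
def numC : ℕ → ℕ
  | 0 => 1
  | k + 1 => 2 * numC k + 1

/-- A function given on the block of the indices below `C`, at `C`, and on the indices above. -/
def comb {X : Type} (C : ℕ) (f : ℕ → X) (r : X) (g : ℕ → X) : ℕ → X :=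
  fun i => if i < C then f i else if i = C then r else g (i - C - 1)

/-- The number of lines of the class `i` of a bundle of type `k`. -/
def lines : ℕ → ℕ → ℕ
  | 0 => fun _ => 1
  | k + 1 => comb (numC k) (fun i => 128 * lines k i) (128 * 384 ^ k) (fun i => 128 * lines k i)

/-- The slope of the class `i` of a bundle of type `k`. -/
def slope : ℕ → ℕ → ℚ
  | 0 => fun _ => 0
  | k + 1 => comb (numC k) (fun i => 5 / 128 * slope k i) (5 / 128 * 2)
      (fun i => 5 / 128 * (3 + slope k i))

/-- The fraction of all lines of the bundle which are below the level in the state `h`. -/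
def weight : ℕ → (ℕ → ℚ) → ℚ
  | 0, h => h 0
  | k + 1, h => (weight k h + h (numC k) + weight k (fun i => h (numC k + 1 + i))) / 3

/-- The state of a bundle of type `k + 1` in the unit `t` of the pass `j`: all smaller units are
below the level, all larger ones above, and the three parts of the unit `t` are in the states
`f`, `r`, `g`. -/
def emb (k j t : ℕ) (f : ℕ → ℚ) (r : ℚ) (g : ℕ → ℚ) : ℕ → ℚ :=
  comb (numC k) (fun i => (2 * j * slope k i + t + f i) / 128) ((2 * j * 2 + t + r) / 128)
    (fun i => (2 * j * (3 + slope k i) + t + g i) / 128)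

/-- The states of one unit in an upward pass. -/
def unitU (k : ℕ) (P : Bool → ℕ → List (ℕ → ℚ)) (j t : ℕ) : List (ℕ → ℚ) :=
  (P true 0).map (fun h => emb k j t 0 0 h) ++ ((P true 0).map (fun h => emb k j t h 0 1) ++
    ((P false 1).map (fun h => emb k j t h (1 - weight k h) 1) ++
      (P true 2).map (fun h => emb k j t h 1 1)))

/-- The states of one unit in a downward pass. -/
def unitD (k : ℕ) (P : Bool → ℕ → List (ℕ → ℚ)) (j t : ℕ) : List (ℕ → ℚ) :=
  (P false 0).map (fun h => emb k j t h 1 1) ++ ((P false 0).map (fun h => emb k j t 0 1 h) ++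
    ((P true 1).map (fun h => emb k j t 0 (1 - weight k h) h) ++
      (P false 2).map (fun h => emb k j t 0 0 h)))

/-- The passes of the bundle of type `k` (`true`: upward, from `0` to `1`; `false`: downward). -/
def pass : ℕ → Bool → ℕ → List (ℕ → ℚ)
  | 0, true, _ => [0, 1]
  | 0, false, _ => [1, 0]
  | k + 1, true, j => [0] ++ ((List.range 112).flatMap (unitU k (pass k) j) ++ [1])
  | k + 1, false, j => [1] ++ ((List.range 112).reverse.flatMap (unitD k (pass k) j) ++ [0])

/-- Strong separation of two states, the first one being earlier. -/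
def Rel (h h' : ℕ → ℚ) : Prop :=
  ∀ i i', i < i' → ¬ (h i < h' i ∧ h' i' < h i')

/-- The number of consecutive states of a list which differ in some class of a bundle of type `k`. -/
def chg (k : ℕ) : List (ℕ → ℚ) → ℕ
  | [] => 0
  | [_] => 0
  | a :: b :: l => (if ∀ i ∈ Finset.range (numC k), a i = b i then 0 else 1) + chg k (b :: l)

/-- Slopes are monotone and between `0` and `1`. -/
def ClaimSlope : Prop :=
  ∀ k : ℕ, (∀ i, 0 ≤ slope k i ∧ slope k i ≤ 1) ∧ (∀ i i', i ≤ i' → slope k i ≤ slope k i')

/-- Bounds and windows. -/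
def ClaimWindow : Prop :=
  ∀ (k : ℕ) (b : Bool) (j : ℕ), j < 3 → ∀ h ∈ pass k b j,
    (∀ i, 0 ≤ h i ∧ h i ≤ 1) ∧
    (∀ i i', i < i' → h i' - h i ≤ slope k i' - slope k i ∧ h i - h i' ≤ slope k i' - slope k i)

/-- The weight is between `0` and `1` and monotone in every pass. -/
def ClaimWeight : Prop :=
  (∀ (k : ℕ) (h h' : ℕ → ℚ), (∀ i, h i ≤ h' i) → weight k h ≤ weight k h') ∧
  (∀ k, weight k 0 = 0 ∧ weight k 1 = 1) ∧
  (∀ (k : ℕ) (j : ℕ), j < 3 →
    (pass k true j).Pairwise (fun h h' => weight k h ≤ weight k h') ∧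
    (pass k false j).Pairwise (fun h h' => weight k h' ≤ weight k h))

/-- Strong separation within a pass and between passes with increasing numbers. -/
def ClaimRel : Prop :=
  ∀ (k : ℕ) (b : Bool) (j : ℕ), j < 3 → (pass k b j).Pairwise Rel ∧
    (∀ (b' : Bool) (j' : ℕ), j < j' → j' < 3 → ∀ h ∈ pass k b j, ∀ h' ∈ pass k b' j', Rel h h')

/-- Counting lines. -/
def ClaimLines : Prop :=
  (∀ k : ℕ, ∑ i ∈ Finset.range (numC k), lines k i = 384 ^ k) ∧
  (∀ (k : ℕ) (h : ℕ → ℚ),
    (384 : ℚ) ^ k * weight k h = ∑ i ∈ Finset.range (numC k), (lines k i : ℚ) * h i) ∧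
  (∀ (k i : ℕ), ∃ z : ℕ, (lines k i : ℚ) * slope k i = z) ∧
  (∀ (k : ℕ) (b : Bool) (j : ℕ), j < 3 → ∀ h ∈ pass k b j, ∀ i, ∃ z : ℕ, (lines k i : ℚ) * h i = z)

/-- Counting steps. -/
def ClaimChg : Prop :=
  ∀ (k : ℕ) (b : Bool) (j : ℕ), 448 ^ k ≤ chg k (pass k b j)

/-- The result for all `n` which are not too small. -/
def ClaimPow : Prop :=
  ∀ (k n : ℕ), Even n → 2 * 384 ^ k ≤ n → ∃ A : AllowableSeq n, 448 ^ k ≤ A.halvingSwaps

/-- The lower bound. -/
def ClaimLower : Prop :=
  ∃ n₀ : ℕ, ∀ n : ℕ, n₀ ≤ n → Even n →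
    ∃ A : AllowableSeq n, (n : ℝ) ^ ((1 : ℝ) + 1 / 40) ≤ (A.halvingSwaps : ℝ)

end Pool.Agent.Work.MP_e17eac_co.PL
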