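import Pool.Agent.Work.MP_e17eac_co.PL.Weight

/-!
# Strong separation of the states
-/

set_option autoImplicit false

namespace Pool.Agent.Work.MP_e17eac_co.PL

namespace RelAux

open WeightAux

theorem rel_le {h h' : ℕ → ℚ} (H : ∀ i, h i ≤ h' i) : Rel h h' :=
  fun _ i' _ hc => absurd hc.2 (not_lt.mpr (H i'))

theorem rel_ge {h h' : ℕ → ℚ} (H : ∀ i, h' i ≤ h i) : Rel h h' :=
  fun i _ _ hc => absurd hc.1 (not_lt.mpr (H i))

theorem rel_emb (k j t : ℕ) {f g f' g' : ℕ → ℚ} {r r' : ℚ} (hf : Rel f f') (hg : Rel g g')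
    (h1 : ∀ i, f i < f' i → r' < r → False)
    (h2 : ∀ i i', f i < f' i → g' i' < g i' → False)
    (h3 : ∀ i', r < r' → g' i' < g i' → False) :
    Rel (emb k j t f r g) (emb k j t f' r' g') := by
  have e1 : ∀ {a b c d : ℚ}, (a + b + c) / 128 < (a + b + d) / 128 → c < d := by
    intro a b c d h
    linarith
  intro i i' hii hc
  obtain ⟨ha, hb⟩ := hc
  simp only [emb, comb] at ha hb
  split_ifs at ha hb
  all_goals first | omega | skip
  · exact hf i i' hii ⟨e1 ha, e1 hb⟩
  · exact h1 i (e1 ha) (e1 hb)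
  · exact h2 i _ (e1 ha) (e1 hb)
  · exact h3 _ (e1 ha) (e1 hb)
  · exact hg (i - numC k - 1) (i' - numC k - 1) (by omega) ⟨e1 ha, e1 hb⟩

theorem unitU_rel (hw : ClaimWindow) (hm : ClaimWeight) (k : ℕ)
    (ih : ∀ (b : Bool) (j : ℕ), j < 3 → (pass k b j).Pairwise Rel ∧
      (∀ (b' : Bool) (j' : ℕ), j < j' → j' < 3 →
        ∀ h ∈ pass k b j, ∀ h' ∈ pass k b' j', Rel h h')) (j t : ℕ) :
    (unitU k (pass k) j t).Pairwise Rel := by
  have bd : ∀ (b : Bool) (j : ℕ), j < 3 → ∀ h ∈ pass k b j, ∀ i, 0 ≤ h i ∧ h i ≤ 1 :=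
    fun b j hj h hh => (hw k b j hj h hh).1
  have wb : ∀ (b : Bool) (j : ℕ), j < 3 → ∀ h ∈ pass k b j, 0 ≤ weight k h ∧ weight k h ≤ 1 :=
    fun b j hj h hh => weight_bd k h (hw k b j hj h hh).1
  have n0 : 0 < 3 := by norm_num
  have n1 : 1 < 3 := by norm_num
  have n2 : 2 < 3 := by norm_num
  have rr : ∀ h : ℕ → ℚ, Rel h h := fun h => rel_le (fun i => le_rfl)
  simp only [unitU, List.pairwise_append, List.pairwise_map, List.mem_append, List.mem_map]
  refine ⟨?_, ⟨?_, ⟨?_, ?_, ?_⟩, ?_⟩, ?_⟩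
  · refine (ih true 0 n0).1.imp ?_
    intro a b hab
    refine rel_emb k j t (rr _) hab ?_ ?_ ?_
    · intro i h; exact absurd h (lt_irrefl _)
    · intro i i' h; exact absurd h (lt_irrefl _)
    · intro i' h; exact absurd h (lt_irrefl _)
  · refine (ih true 0 n0).1.imp ?_
    intro a b hab
    refine rel_emb k j t hab (rr _) ?_ ?_ ?_
    · intro i _ h; exact absurd h (lt_irrefl _)
    · intro i i' _ h; exact absurd h (lt_irrefl _)
    · intro i' h; exact absurd h (lt_irrefl _)
  · have hp := (ih false 1 n1).1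
    have hq := (hm.2.2 k 1 n1).2
    refine (hp.and hq).imp ?_
    rintro a b ⟨hab, hwt⟩
    refine rel_emb k j t hab (rr _) ?_ ?_ ?_
    · intro i _ h; linarith
    · intro i i' _ h; exact absurd h (lt_irrefl _)
    · intro i' _ h; exact absurd h (lt_irrefl _)
  · refine (ih true 2 n2).1.imp ?_
    intro a b hab
    refine rel_emb k j t hab (rr _) ?_ ?_ ?_
    · intro i _ h; exact absurd h (lt_irrefl _)
    · intro i i' _ h; exact absurd h (lt_irrefl _)
    · intro i' h; exact absurd h (lt_irrefl _)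
  · rintro _ ⟨h, hh, rfl⟩ _ ⟨h', hh', rfl⟩
    refine rel_emb k j t ((ih false 1 n1).2 true 2 (by norm_num) n2 h hh h' hh') (rr _) ?_ ?_ ?_
    · intro i _ hx
      have := (wb _ _ n1 h hh).1
      linarith
    · intro i i' _ hx; exact absurd hx (lt_irrefl _)
    · intro i' _ hx; exact absurd hx (lt_irrefl _)
  · rintro _ ⟨h, hh, rfl⟩ _ (⟨h', hh', rfl⟩ | ⟨h', hh', rfl⟩)
    · refine rel_emb k j t ((ih true 0 n0).2 false 1 (by norm_num) n1 h hh h' hh') (rr _) ?_ ?_ ?_
      · intro i _ hx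
        have := (wb _ _ n1 h' hh').2
        linarith
      · intro i i' _ hx; exact absurd hx (lt_irrefl _)
      · intro i' _ hx; exact absurd hx (lt_irrefl _)
    · refine rel_emb k j t ((ih true 0 n0).2 true 2 (by norm_num) n2 h hh h' hh') (rr _) ?_ ?_ ?_
      · intro i _ hx
        norm_num at hx
      · intro i i' _ hx; exact absurd hx (lt_irrefl _)
      · intro i' _ hx; exact absurd hx (lt_irrefl _)
  · rintro _ ⟨h, hh, rfl⟩ _ (⟨h', hh', rfl⟩ | ⟨h', hh', rfl⟩ | ⟨h', hh', rfl⟩)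
    · refine rel_emb k j t (rel_le fun i => (bd _ _ n0 h' hh' i).1)
        (rel_le fun i => (bd _ _ n0 h hh i).2) ?_ ?_ ?_
      · intro i _ hx; exact absurd hx (lt_irrefl _)
      · intro i i' _ hx; exact absurd hx (not_lt.mpr (bd _ _ n0 h hh i').2)
      · intro i' _ hx; exact absurd hx (not_lt.mpr (bd _ _ n0 h hh i').2)
    · refine rel_emb k j t (rel_le fun i => (bd _ _ n1 h' hh' i).1)
        (rel_le fun i => (bd _ _ n0 h hh i).2) ?_ ?_ ?_
      · intro i _ hx
        have := (wb _ _ n1 h' hh').2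
        linarith
      · intro i i' _ hx; exact absurd hx (not_lt.mpr (bd _ _ n0 h hh i').2)
      · intro i' _ hx; exact absurd hx (not_lt.mpr (bd _ _ n0 h hh i').2)
    · refine rel_emb k j t (rel_le fun i => (bd _ _ n2 h' hh' i).1)
        (rel_le fun i => (bd _ _ n0 h hh i).2) ?_ ?_ ?_
      · intro i _ hx
        norm_num at hx
      · intro i i' _ hx; exact absurd hx (not_lt.mpr (bd _ _ n0 h hh i').2)
      · intro i' _ hx; exact absurd hx (not_lt.mpr (bd _ _ n0 h hh i').2)

theorem unitD_rel (hw : ClaimWindow) (hm : ClaimWeight) (k : ℕ)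
    (ih : ∀ (b : Bool) (j : ℕ), j < 3 → (pass k b j).Pairwise Rel ∧
      (∀ (b' : Bool) (j' : ℕ), j < j' → j' < 3 →
        ∀ h ∈ pass k b j, ∀ h' ∈ pass k b' j', Rel h h')) (j t : ℕ) :
    (unitD k (pass k) j t).Pairwise Rel := by
  have bd : ∀ (b : Bool) (j : ℕ), j < 3 → ∀ h ∈ pass k b j, ∀ i, 0 ≤ h i ∧ h i ≤ 1 :=
    fun b j hj h hh => (hw k b j hj h hh).1
  have wb : ∀ (b : Bool) (j : ℕ), j < 3 → ∀ h ∈ pass k b j, 0 ≤ weight k h ∧ weight k h ≤ 1 :=
    fun b j hj h hh => weight_bd k h (hw k b j hj h hh).1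
  have n0 : 0 < 3 := by norm_num
  have n1 : 1 < 3 := by norm_num
  have n2 : 2 < 3 := by norm_num
  have rr : ∀ h : ℕ → ℚ, Rel h h := fun h => rel_le (fun i => le_rfl)
  simp only [unitD, List.pairwise_append, List.pairwise_map, List.mem_append, List.mem_map]
  refine ⟨?_, ⟨?_, ⟨?_, ?_, ?_⟩, ?_⟩, ?_⟩
  · refine (ih false 0 n0).1.imp ?_
    intro a b hab
    refine rel_emb k j t hab (rr _) ?_ ?_ ?_
    · intro i _ h; exact absurd h (lt_irrefl _)
    · intro i i' _ h; exact absurd h (lt_irrefl _)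
    · intro i' h; exact absurd h (lt_irrefl _)
  · refine (ih false 0 n0).1.imp ?_
    intro a b hab
    refine rel_emb k j t (rr _) hab ?_ ?_ ?_
    · intro i h; exact absurd h (lt_irrefl _)
    · intro i i' h; exact absurd h (lt_irrefl _)
    · intro i' h; exact absurd h (lt_irrefl _)
  · have hp := (ih true 1 n1).1
    have hq := (hm.2.2 k 1 n1).1
    refine (hp.and hq).imp ?_
    rintro a b ⟨hab, hwt⟩
    refine rel_emb k j t (rr _) hab ?_ ?_ ?_
    · intro i h; exact absurd h (lt_irrefl _)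
    · intro i i' h; exact absurd h (lt_irrefl _)
    · intro i' h _; linarith
  · refine (ih false 2 n2).1.imp ?_
    intro a b hab
    refine rel_emb k j t (rr _) hab ?_ ?_ ?_
    · intro i h; exact absurd h (lt_irrefl _)
    · intro i i' h; exact absurd h (lt_irrefl _)
    · intro i' h; exact absurd h (lt_irrefl _)
  · rintro _ ⟨h, hh, rfl⟩ _ ⟨h', hh', rfl⟩
    refine rel_emb k j t (rr _) ((ih true 1 n1).2 false 2 (by norm_num) n2 h hh h' hh') ?_ ?_ ?_
    · intro i hx; exact absurd hx (lt_irrefl _)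
    · intro i i' hx; exact absurd hx (lt_irrefl _)
    · intro i' hx _
      have := (wb _ _ n1 h hh).2
      linarith
  · rintro _ ⟨h, hh, rfl⟩ _ (⟨h', hh', rfl⟩ | ⟨h', hh', rfl⟩)
    · refine rel_emb k j t (rr _) ((ih false 0 n0).2 true 1 (by norm_num) n1 h hh h' hh') ?_ ?_ ?_
      · intro i hx; exact absurd hx (lt_irrefl _)
      · intro i i' hx; exact absurd hx (lt_irrefl _)
      · intro i' hx _
        have := (wb _ _ n1 h' hh').1
        linarith
    · refine rel_emb k j t (rr _) ((ih false 0 n0).2 false 2 (by norm_num) n2 h hh h' hh') ?_ ?_ ?_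
      · intro i hx; exact absurd hx (lt_irrefl _)
      · intro i i' hx; exact absurd hx (lt_irrefl _)
      · intro i' hx _
        norm_num at hx
  · rintro _ ⟨h, hh, rfl⟩ _ (⟨h', hh', rfl⟩ | ⟨h', hh', rfl⟩ | ⟨h', hh', rfl⟩)
    · refine rel_emb k j t (rel_ge fun i => (bd _ _ n0 h hh i).1)
        (rel_ge fun i => (bd _ _ n0 h' hh' i).2) ?_ ?_ ?_
      · intro i hx; exact absurd hx (not_lt.mpr (bd _ _ n0 h hh i).1)
      · intro i i' hx; exact absurd hx (not_lt.mpr (bd _ _ n0 h hh i).1)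
      · intro i' hx; exact absurd hx (lt_irrefl _)
    · refine rel_emb k j t (rel_ge fun i => (bd _ _ n0 h hh i).1)
        (rel_ge fun i => (bd _ _ n1 h' hh' i).2) ?_ ?_ ?_
      · intro i hx; exact absurd hx (not_lt.mpr (bd _ _ n0 h hh i).1)
      · intro i i' hx; exact absurd hx (not_lt.mpr (bd _ _ n0 h hh i).1)
      · intro i' hx _
        have := (wb _ _ n1 h' hh').1
        linarith
    · refine rel_emb k j t (rel_ge fun i => (bd _ _ n0 h hh i).1)
        (rel_ge fun i => (bd _ _ n2 h' hh' i).2) ?_ ?_ ?_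
      · intro i hx; exact absurd hx (not_lt.mpr (bd _ _ n0 h hh i).1)
      · intro i i' hx; exact absurd hx (not_lt.mpr (bd _ _ n0 h hh i).1)
      · intro i' hx _
        norm_num at hx

/-- The slopes before scaling. -/
def sl (k : ℕ) : ℕ → ℚ := comb (numC k) (slope k) 2 (fun i => 3 + slope k i)

theorem sl_mono (hs : ClaimSlope) (k : ℕ) : ∀ i i', i ≤ i' → sl k i ≤ sl k i' := by
  intro i i' hii
  have h1 := (hs k).1
  have h2 := (hs k).2
  simp only [sl, comb]
  split_ifs
  all_goals first | omega | skip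
  · exact h2 i i' hii
  · linarith [(h1 i).2]
  · linarith [(h1 i).2, (h1 (i' - numC k - 1)).1]
  · exact le_rfl
  · linarith [(h1 (i' - numC k - 1)).1]
  · linarith [h2 (i - numC k - 1) (i' - numC k - 1) (by omega)]

theorem win_mem (hs : ClaimSlope) (hw : ClaimWindow) (k : ℕ) (f : ℕ → ℚ) (hf : Mem k f) :
    ∀ i i', i < i' →
      f i' - f i ≤ slope k i' - slope k i ∧ f i - f i' ≤ slope k i' - slope k i := by
  intro i i' hii
  have h0 : slope k i ≤ slope k i' := (hs k).2 i i' hii.le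
  rcases hf with rfl | rfl | ⟨b, j, hj, hf⟩
  · simp only [Pi.zero_apply]
    constructor <;> linarith
  · simp only [Pi.one_apply]
    constructor <;> linarith
  · exact (hw k b j hj f hf).2 i i' hii

/-- Windows of the states of a unit. -/
theorem win_emb (hs : ClaimSlope) (hw : ClaimWindow) {k j t : ℕ} {f g : ℕ → ℚ} {r : ℚ}
    (hf : Mem k f) (hr : MemR k r) (hg : Mem k g) (i i' : ℕ) (hii : i < i') :
    (2 * (j : ℚ) - 1) * (sl k i' - sl k i) ≤
        128 * (emb k j t f r g i' - emb k j t f r g i) ∧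
      128 * (emb k j t f r g i' - emb k j t f r g i) ≤
        (2 * (j : ℚ) + 1) * (sl k i' - sl k i) := by
  have a1 := bd_mem hw k f hf
  have a2 := bd_memR hw k r hr
  have a3 := bd_mem hw k g hg
  have w1 := win_mem hs hw k f hf
  have w3 := win_mem hs hw k g hg
  have s1 := (hs k).1
  simp only [sl, emb, comb]
  split_ifs
  all_goals first | omega | skip
  · have := w1 i i' hii
    constructor <;> nlinarith [this.1, this.2]
  · have := a1 i
    have := s1 i
    constructor <;> nlinarith [(a1 i).1, (a1 i).2, (s1 i).1, (s1 i).2, a2.1, a2.2]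
  · constructor <;>
    nlinarith [(a1 i).1, (a1 i).2, (s1 i).1, (s1 i).2, (a3 (i' - numC k - 1)).1,
      (a3 (i' - numC k - 1)).2, (s1 (i' - numC k - 1)).1, (s1 (i' - numC k - 1)).2]
  · constructor <;>
    nlinarith [a2.1, a2.2, (a3 (i' - numC k - 1)).1,
      (a3 (i' - numC k - 1)).2, (s1 (i' - numC k - 1)).1, (s1 (i' - numC k - 1)).2]
  · have := w3 (i - numC k - 1) (i' - numC k - 1) (by omega)
    constructor <;> nlinarith [this.1, this.2]

/-- The states of a pass of type `k + 1`. -/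
theorem mem_pass {k : ℕ} {b : Bool} {j : ℕ} {x : ℕ → ℚ} (hx : x ∈ pass (k + 1) b j) :
    x = 0 ∨ x = 1 ∨ ∃ t f r g, x = emb k j t f r g ∧ Mem k f ∧ MemR k r ∧ Mem k g := by
  cases b
  · simp only [pass, List.mem_append, List.mem_singleton, List.mem_flatMap] at hx
    rcases hx with rfl | ⟨t, _, hx⟩ | rfl
    · exact Or.inr (Or.inl rfl)
    · exact Or.inr (Or.inr ⟨t, mem_unitD hx⟩)
    · exact Or.inl rfl
  · simp only [pass, List.mem_append, List.mem_singleton, List.mem_flatMap] at hx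
    rcases hx with rfl | ⟨t, _, hx⟩ | rfl
    · exact Or.inl rfl
    · exact Or.inr (Or.inr ⟨t, mem_unitU hx⟩)
    · exact Or.inr (Or.inl rfl)

theorem cross (hs : ClaimSlope) (hw : ClaimWindow) (k : ℕ) (b : Bool) (j : ℕ) (hj : j < 3)
    (b' : Bool) (j' : ℕ) (hjj : j < j') (h : ℕ → ℚ) (hh : h ∈ pass (k + 1) b j)
    (h' : ℕ → ℚ) (hh' : h' ∈ pass (k + 1) b' j') : Rel h h' := by
  intro i i' hii hc
  obtain ⟨c1, c2⟩ := hc
  have bd := (hw (k + 1) b j hj h hh).1
  rcases mem_pass hh' with rfl | rfl | ⟨t', f', r', g', rfl, m1, m2, m3⟩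
  · exact absurd c1 (not_lt.mpr (bd i).1)
  · exact absurd c2 (not_lt.mpr (bd i').2)
  · have hD : 0 ≤ sl k i' - sl k i := sub_nonneg.mpr (sl_mono hs k i i' hii.le)
    have low := (win_emb hs hw (j := j') (t := t') m1 m2 m3 i i' hii).1
    have hjq : (j : ℚ) + 1 ≤ j' := by exact_mod_cast hjj
    have hj0 : (0 : ℚ) ≤ j := by positivity
    have up : 128 * (h i' - h i) ≤ (2 * (j : ℚ) + 1) * (sl k i' - sl k i) := by
      rcases mem_pass hh with rfl | rfl | ⟨t, f, r, g, rfl, m1, m2, m3⟩
      · simp only [Pi.zero_apply]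
        nlinarith
      · simp only [Pi.one_apply]
        nlinarith
      · exact (win_emb hs hw (j := j) (t := t) m1 m2 m3 i i' hii).2
    have hmid : (2 * (j : ℚ) + 1) * (sl k i' - sl k i) ≤
        (2 * (j' : ℚ) - 1) * (sl k i' - sl k i) :=
      mul_le_mul_of_nonneg_right (by linarith) hD
    linarith

theorem within (hw : ClaimWindow) (hm : ClaimWeight) (k : ℕ)
    (ih : ∀ (b : Bool) (j : ℕ), j < 3 → (pass k b j).Pairwise Rel ∧
      (∀ (b' : Bool) (j' : ℕ), j < j' → j' < 3 →
        ∀ h ∈ pass k b j, ∀ h' ∈ pass k b' j', Rel h h')) (b : Bool) (j : ℕ) (hj : j < 3) :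
    (pass (k + 1) b j).Pairwise Rel := by
  have hb := hw (k + 1) b j hj
  cases b
  · have hmm : ∀ h ∈ pass (k + 1) false j, ∀ i, 0 ≤ h i ∧ h i ≤ 1 :=
      fun h hh => (hb h hh).1
    simp only [pass, List.mem_append] at hmm
    simp only [pass, List.pairwise_append]
    refine ⟨List.pairwise_singleton _ _, ⟨?_, List.pairwise_singleton _ _, ?_⟩, ?_⟩
    · rw [List.pairwise_flatMap]
      refine ⟨fun t _ => unitD_rel hw hm k ih j t, ?_⟩
      rw [List.pairwise_reverse]
      refine List.pairwise_lt_range.imp ?_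
      intro t t' htt x hx y hy
      obtain ⟨f, r, g, rfl, m1, m2, m3⟩ := mem_unitD hx
      obtain ⟨f', r', g', rfl, m1', m2', m3'⟩ := mem_unitD hy
      exact rel_ge (emb_le hw htt m1' m2' m3' m1 m2 m3)
    · intro x hx y hy
      rw [List.mem_singleton] at hy
      subst hy
      exact rel_ge (fun i => (hmm x (Or.inr (Or.inl hx)) i).1)
    · intro x hx y hy
      rw [List.mem_singleton] at hx
      subst hx
      rw [List.mem_append] at hy
      exact rel_ge (fun i => (hmm y (Or.inr hy) i).2)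
  · have hmm : ∀ h ∈ pass (k + 1) true j, ∀ i, 0 ≤ h i ∧ h i ≤ 1 :=
      fun h hh => (hb h hh).1
    simp only [pass, List.mem_append] at hmm
    simp only [pass, List.pairwise_append]
    refine ⟨List.pairwise_singleton _ _, ⟨?_, List.pairwise_singleton _ _, ?_⟩, ?_⟩
    · rw [List.pairwise_flatMap]
      refine ⟨fun t _ => unitU_rel hw hm k ih j t, ?_⟩
      refine List.pairwise_lt_range.imp ?_
      intro t t' htt x hx y hy
      obtain ⟨f, r, g, rfl, m1, m2, m3⟩ := mem_unitU hx
      obtain ⟨f', r', g', rfl, m1', m2', m3'⟩ := mem_unitU hy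
      exact rel_le (emb_le hw htt m1 m2 m3 m1' m2' m3')
    · intro x hx y hy
      rw [List.mem_singleton] at hy
      subst hy
      exact rel_le (fun i => (hmm x (Or.inr (Or.inl hx)) i).2)
    · intro x hx y hy
      rw [List.mem_singleton] at hx
      subst hx
      rw [List.mem_append] at hy
      exact rel_le (fun i => (hmm y (Or.inr hy) i).1)

theorem zero_mem {b : Bool} {j : ℕ} {h : ℕ → ℚ} (hh : h ∈ pass 0 b j) : h = 0 ∨ h = 1 := by
  cases b
  · simp only [pass, List.mem_cons, List.not_mem_nil, or_false] at hh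
    exact hh.symm
  · simp only [pass, List.mem_cons, List.not_mem_nil, or_false] at hh
    exact hh

theorem rel_const {h h' : ℕ → ℚ} (a : h = 0 ∨ h = 1) (a' : h' = 0 ∨ h' = 1) : Rel h h' := by
  rcases a with rfl | rfl <;> rcases a' with rfl | rfl
  · exact rel_le (fun i => le_rfl)
  · exact rel_le (fun i => by simp)
  · exact rel_ge (fun i => by simp)
  · exact rel_le (fun i => le_rfl)

end RelAux

/-- Strong separation. -/
theorem claimRel (hs : ClaimSlope) (hw : ClaimWindow) (hm : ClaimWeight) : ClaimRel := by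
  intro k
  induction k with
  | zero =>
    intro b j hj
    refine ⟨?_, ?_⟩
    · cases b
      · simp only [pass, List.pairwise_cons, List.mem_singleton]
        refine ⟨?_, ?_, List.Pairwise.nil⟩
        · rintro _ rfl
          exact RelAux.rel_const (Or.inr rfl) (Or.inl rfl)
        · intro _ h
          exact absurd h List.not_mem_nil
      · simp only [pass, List.pairwise_cons, List.mem_singleton]
        refine ⟨?_, ?_, List.Pairwise.nil⟩
        · rintro _ rfl
          exact RelAux.rel_const (Or.inl rfl) (Or.inr rfl)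
        · intro _ h
          exact absurd h List.not_mem_nil
    · intro b' j' _ _ h hh h' hh'
      exact RelAux.rel_const (RelAux.zero_mem hh) (RelAux.zero_mem hh')
  | succ k ih =>
    intro b j hj
    refine ⟨RelAux.within hw hm k ih b j hj, ?_⟩
    intro b' j' hjj hj' h hh h' hh'
    exact RelAux.cross hs hw k b j hj b' j' hjj h hh h' hh'

end Pool.Agent.Work.MP_e17eac_co.PL
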