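import Pool.Agent.Work.MP_e17eac_co.PL.Rec

/-!
# Weights are monotone in every pass
-/

set_option autoImplicit false

namespace Pool.Agent.Work.MP_e17eac_co.PL

namespace WeightAux

/-- `0`, `1` or a state of a pass of type `k`. -/
def Mem (k : ℕ) (f : ℕ → ℚ) : Prop :=
  f = 0 ∨ f = 1 ∨ ∃ (b : Bool) (j : ℕ), j < 3 ∧ f ∈ pass k b j

/-- The possible values of the middle part. -/
def MemR (k : ℕ) (r : ℚ) : Prop :=
  r = 0 ∨ r = 1 ∨ ∃ (b : Bool) (j : ℕ) (h : ℕ → ℚ), j < 3 ∧ h ∈ pass k b j ∧ r = 1 - weight k h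

theorem weight_mono (k : ℕ) : ∀ h h' : ℕ → ℚ, (∀ i, h i ≤ h' i) → weight k h ≤ weight k h' := by
  induction k with
  | zero => intro h h' hh; exact hh 0
  | succ k ih =>
    intro h h' hh
    have h1 := ih h h' hh
    have h2 := ih (fun i => h (numC k + 1 + i)) (fun i => h' (numC k + 1 + i)) (fun i => hh _)
    have h3 := hh (numC k)
    simp only [weight]
    linarith

theorem weight_congr (k : ℕ) :
    ∀ h h' : ℕ → ℚ, (∀ i, i < numC k → h i = h' i) → weight k h = weight k h' := by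
  induction k with
  | zero => intro h h' hh; exact hh 0 (by simp [numC])
  | succ k ih =>
    intro h h' hh
    have h1 := ih h h' (fun i hi => hh i (by simp only [numC]; omega))
    have h2 := ih (fun i => h (numC k + 1 + i)) (fun i => h' (numC k + 1 + i))
      (fun i hi => hh _ (by simp only [numC]; omega))
    have h3 := hh (numC k) (by simp only [numC]; omega)
    simp only [weight]
    rw [h1, h2, h3]

theorem weight_zero_one (k : ℕ) : weight k 0 = 0 ∧ weight k 1 = 1 := by
  induction k with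
  | zero => exact ⟨rfl, rfl⟩
  | succ k ih =>
    have h0 : (fun i => (0 : ℕ → ℚ) (numC k + 1 + i)) = 0 := rfl
    have h1 : (fun i => (1 : ℕ → ℚ) (numC k + 1 + i)) = 1 := rfl
    constructor
    · simp only [weight]
      rw [h0, ih.1]
      norm_num
    · simp only [weight]
      rw [h1, ih.2]
      norm_num

theorem weight_add (k : ℕ) :
    ∀ (c : ℚ) (a h : ℕ → ℚ), weight k (fun i => a i + c * h i) = weight k a + c * weight k h := by
  induction k with
  | zero => intro c a h; rfl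
  | succ k ih =>
    intro c a h
    simp only [weight]
    rw [ih c a h, ih c (fun i => a (numC k + 1 + i)) (fun i => h (numC k + 1 + i))]
    ring

theorem weight_emb (k j t : ℕ) : ∃ c : ℚ, ∀ (f : ℕ → ℚ) (r : ℚ) (g : ℕ → ℚ),
    weight (k + 1) (emb k j t f r g) = c + (weight k f + r + weight k g) / 384 := by
  refine ⟨(weight k (fun i => (2 * j * slope k i + t) / 128) + (2 * j * 2 + t) / 128 +
    weight k (fun i => (2 * j * (3 + slope k i) + t) / 128)) / 3, ?_⟩
  intro f r g
  have h1 : weight k (emb k j t f r g) =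
      weight k (fun i => (2 * j * slope k i + t) / 128) + 1 / 128 * weight k f := by
    rw [← weight_add]
    apply weight_congr
    intro i hi
    simp only [emb, comb, if_pos hi]
    ring
  have h2 : weight k (fun i => emb k j t f r g (numC k + 1 + i)) =
      weight k (fun i => (2 * j * (3 + slope k i) + t) / 128) + 1 / 128 * weight k g := by
    rw [← weight_add]
    apply weight_congr
    intro i hi
    have e1 : ¬ (numC k + 1 + i < numC k) := by omega
    have e2 : ¬ (numC k + 1 + i = numC k) := by omega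
    have e3 : numC k + 1 + i - numC k - 1 = i := by omega
    simp only [emb, comb, if_neg e1, if_neg e2, e3]
    ring
  have h3 : emb k j t f r g (numC k) = (2 * j * 2 + t + r) / 128 := by
    simp only [emb, comb, lt_irrefl, if_false, if_true]
  simp only [weight]
  rw [h1, h2, h3]
  ring

theorem bd_mem (hw : ClaimWindow) (k : ℕ) (f : ℕ → ℚ) (hf : Mem k f) :
    ∀ i, 0 ≤ f i ∧ f i ≤ 1 := by
  rcases hf with rfl | rfl | ⟨b, j, hj, hf⟩
  · intro i; simp
  · intro i; simp
  · exact (hw k b j hj f hf).1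

theorem weight_bd (k : ℕ) (f : ℕ → ℚ) (hf : ∀ i, 0 ≤ f i ∧ f i ≤ 1) :
    0 ≤ weight k f ∧ weight k f ≤ 1 := by
  constructor
  · have := weight_mono k 0 f (fun i => (hf i).1)
    rwa [(weight_zero_one k).1] at this
  · have := weight_mono k f 1 (fun i => (hf i).2)
    rwa [(weight_zero_one k).2] at this

theorem bd_memR (hw : ClaimWindow) (k : ℕ) (r : ℚ) (hr : MemR k r) : 0 ≤ r ∧ r ≤ 1 := by
  rcases hr with rfl | rfl | ⟨b, j, h, hj, hh, rfl⟩
  · norm_num
  · norm_num
  · have := weight_bd k h (hw k b j hj h hh).1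
    constructor <;> linarith [this.1, this.2]

theorem mem_unitU {k j t : ℕ} {x : ℕ → ℚ} (hx : x ∈ unitU k (pass k) j t) :
    ∃ f r g, x = emb k j t f r g ∧ Mem k f ∧ MemR k r ∧ Mem k g := by
  simp only [unitU, List.mem_append, List.mem_map] at hx
  rcases hx with ⟨h, hh, rfl⟩ | ⟨h, hh, rfl⟩ | ⟨h, hh, rfl⟩ | ⟨h, hh, rfl⟩
  · exact ⟨_, _, _, rfl, Or.inl rfl, Or.inl rfl, Or.inr (Or.inr ⟨_, 0, by norm_num, hh⟩)⟩
  · exact ⟨_, _, _, rfl, Or.inr (Or.inr ⟨_, 0, by norm_num, hh⟩), Or.inl rfl,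
      Or.inr (Or.inl rfl)⟩
  · exact ⟨_, _, _, rfl, Or.inr (Or.inr ⟨_, 1, by norm_num, hh⟩),
      Or.inr (Or.inr ⟨_, 1, h, by norm_num, hh, rfl⟩), Or.inr (Or.inl rfl)⟩
  · exact ⟨_, _, _, rfl, Or.inr (Or.inr ⟨_, 2, by norm_num, hh⟩), Or.inr (Or.inl rfl),
      Or.inr (Or.inl rfl)⟩

theorem mem_unitD {k j t : ℕ} {x : ℕ → ℚ} (hx : x ∈ unitD k (pass k) j t) :
    ∃ f r g, x = emb k j t f r g ∧ Mem k f ∧ MemR k r ∧ Mem k g := by
  simp only [unitD, List.mem_append, List.mem_map] at hx
  rcases hx with ⟨h, hh, rfl⟩ | ⟨h, hh, rfl⟩ | ⟨h, hh, rfl⟩ | ⟨h, hh, rfl⟩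
  · exact ⟨_, _, _, rfl, Or.inr (Or.inr ⟨_, 0, by norm_num, hh⟩), Or.inr (Or.inl rfl),
      Or.inr (Or.inl rfl)⟩
  · exact ⟨_, _, _, rfl, Or.inl rfl, Or.inr (Or.inl rfl),
      Or.inr (Or.inr ⟨_, 0, by norm_num, hh⟩)⟩
  · exact ⟨_, _, _, rfl, Or.inl rfl,
      Or.inr (Or.inr ⟨_, 1, h, by norm_num, hh, rfl⟩), Or.inr (Or.inr ⟨_, 1, by norm_num, hh⟩)⟩
  · exact ⟨_, _, _, rfl, Or.inl rfl, Or.inl rfl, Or.inr (Or.inr ⟨_, 2, by norm_num, hh⟩)⟩

/-- States of a smaller unit are below the states of a larger one. -/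
theorem emb_le (hw : ClaimWindow) {k j t t' : ℕ} (htt : t < t') {f g f' g' : ℕ → ℚ} {r r' : ℚ}
    (hf : Mem k f) (hr : MemR k r) (hg : Mem k g) (hf' : Mem k f') (hr' : MemR k r')
    (hg' : Mem k g') : ∀ i, emb k j t f r g i ≤ emb k j t' f' r' g' i := by
  intro i
  have ht : (t : ℚ) + 1 ≤ t' := by exact_mod_cast htt
  have a1 := bd_mem hw k f hf
  have a2 := bd_memR hw k r hr
  have a3 := bd_mem hw k g hg
  have b1 := bd_mem hw k f' hf'
  have b2 := bd_memR hw k r' hr'
  have b3 := bd_mem hw k g' hg'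
  simp only [emb, comb]
  split_ifs
  · have := (a1 i).2
    have := (b1 i).1
    linarith
  · linarith [a2.2, b2.1]
  · have := (a3 (i - numC k - 1)).2
    have := (b3 (i - numC k - 1)).1
    linarith

theorem pw_unitU (hw : ClaimWindow) (k : ℕ)
    (ih : ∀ j, j < 3 → (pass k true j).Pairwise (fun h h' => weight k h ≤ weight k h') ∧
      (pass k false j).Pairwise (fun h h' => weight k h' ≤ weight k h)) (j t : ℕ) :
    (unitU k (pass k) j t).Pairwise (fun h h' => weight (k + 1) h ≤ weight (k + 1) h') := by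
  obtain ⟨c, hc⟩ := weight_emb k j t
  have w0 := (weight_zero_one k).1
  have w1 := (weight_zero_one k).2
  have hb : ∀ (b : Bool) (j : ℕ), j < 3 → ∀ h ∈ pass k b j, 0 ≤ weight k h ∧ weight k h ≤ 1 :=
    fun b j hj h hh => weight_bd k h (hw k b j hj h hh).1
  simp only [unitU, List.pairwise_append, List.pairwise_map, List.mem_append, List.mem_map, hc,
    w0, w1]
  refine ⟨?_, ⟨?_, ⟨?_, ?_, ?_⟩, ?_⟩, ?_⟩
  · exact (ih 0 (by norm_num)).1.imp (by intro a b hab; linarith)
  · exact (ih 0 (by norm_num)).1.imp (by intro a b hab; linarith)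
  · exact (ih 1 (by norm_num)).2.imp (by intro a b hab; linarith)
  · exact (ih 2 (by norm_num)).1.imp (by intro a b hab; linarith)
  · rintro _ ⟨h, hh, rfl⟩ _ ⟨h', hh', rfl⟩
    rw [hc, hc, w1]
    linarith [(hb _ _ (by norm_num) h' hh').1]
  · rintro _ ⟨h, hh, rfl⟩ _ (⟨h', hh', rfl⟩ | ⟨h', hh', rfl⟩)
    · rw [hc, hc, w1]
      linarith [(hb _ _ (by norm_num) h hh).2]
    · rw [hc, hc, w1]
      linarith [(hb _ _ (by norm_num) h hh).2, (hb _ _ (by norm_num) h' hh').1]
  · rintro _ ⟨h, hh, rfl⟩ _ (⟨h', hh', rfl⟩ | ⟨h', hh', rfl⟩ | ⟨h', hh', rfl⟩)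
    · rw [hc, hc, w1, w0]
      linarith [(hb _ _ (by norm_num) h hh).2, (hb _ _ (by norm_num) h' hh').1]
    · rw [hc, hc, w1, w0]
      linarith [(hb _ _ (by norm_num) h hh).2, (hb _ _ (by norm_num) h' hh').1]
    · rw [hc, hc, w1, w0]
      linarith [(hb _ _ (by norm_num) h hh).2, (hb _ _ (by norm_num) h' hh').1]

theorem pw_unitD (hw : ClaimWindow) (k : ℕ)
    (ih : ∀ j, j < 3 → (pass k true j).Pairwise (fun h h' => weight k h ≤ weight k h') ∧
      (pass k false j).Pairwise (fun h h' => weight k h' ≤ weight k h)) (j t : ℕ) :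
    (unitD k (pass k) j t).Pairwise (fun h h' => weight (k + 1) h' ≤ weight (k + 1) h) := by
  obtain ⟨c, hc⟩ := weight_emb k j t
  have w0 := (weight_zero_one k).1
  have w1 := (weight_zero_one k).2
  have hb : ∀ (b : Bool) (j : ℕ), j < 3 → ∀ h ∈ pass k b j, 0 ≤ weight k h ∧ weight k h ≤ 1 :=
    fun b j hj h hh => weight_bd k h (hw k b j hj h hh).1
  simp only [unitD, List.pairwise_append, List.pairwise_map, List.mem_append, List.mem_map, hc,
    w0, w1]
  refine ⟨?_, ⟨?_, ⟨?_, ?_, ?_⟩, ?_⟩, ?_⟩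
  · exact (ih 0 (by norm_num)).2.imp (by intro a b hab; linarith)
  · exact (ih 0 (by norm_num)).2.imp (by intro a b hab; linarith)
  · exact (ih 1 (by norm_num)).1.imp (by intro a b hab; linarith)
  · exact (ih 2 (by norm_num)).2.imp (by intro a b hab; linarith)
  · rintro _ ⟨h, hh, rfl⟩ _ ⟨h', hh', rfl⟩
    rw [hc, hc, w0]
    linarith [(hb _ _ (by norm_num) h' hh').2]
  · rintro _ ⟨h, hh, rfl⟩ _ (⟨h', hh', rfl⟩ | ⟨h', hh', rfl⟩)
    · rw [hc, hc, w0]
      linarith [(hb _ _ (by norm_num) h hh).1]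
    · rw [hc, hc, w0]
      linarith [(hb _ _ (by norm_num) h hh).1, (hb _ _ (by norm_num) h' hh').2]
  · rintro _ ⟨h, hh, rfl⟩ _ (⟨h', hh', rfl⟩ | ⟨h', hh', rfl⟩ | ⟨h', hh', rfl⟩)
    · rw [hc, hc, w1, w0]
      linarith [(hb _ _ (by norm_num) h hh).1, (hb _ _ (by norm_num) h' hh').2]
    · rw [hc, hc, w1, w0]
      linarith [(hb _ _ (by norm_num) h hh).1, (hb _ _ (by norm_num) h' hh').2]
    · rw [hc, hc, w1, w0]
      linarith [(hb _ _ (by norm_num) h hh).1, (hb _ _ (by norm_num) h' hh').2]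

theorem pw (hw : ClaimWindow) (k : ℕ) : ∀ j, j < 3 →
    (pass k true j).Pairwise (fun h h' => weight k h ≤ weight k h') ∧
      (pass k false j).Pairwise (fun h h' => weight k h' ≤ weight k h) := by
  induction k with
  | zero =>
    intro j hj
    have h0 := (weight_zero_one 0).1
    have h1 := (weight_zero_one 0).2
    constructor
    · simp [pass, h0, h1]
    · simp [pass, h0, h1]
  | succ k ih =>
    intro j hj
    have hb := hw (k + 1)
    constructor
    · have hm : ∀ h ∈ pass (k + 1) true j, ∀ i, 0 ≤ h i ∧ h i ≤ 1 :=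
        fun h hh => (hb true j hj h hh).1
      simp only [pass, List.mem_append] at hm
      simp only [pass, List.pairwise_append]
      refine ⟨List.pairwise_singleton _ _, ⟨?_, List.pairwise_singleton _ _, ?_⟩, ?_⟩
      · rw [List.pairwise_flatMap]
        refine ⟨fun t _ => pw_unitU hw k ih j t, ?_⟩
        refine List.pairwise_lt_range.imp ?_
        intro t t' htt x hx y hy
        obtain ⟨f, r, g, rfl, m1, m2, m3⟩ := mem_unitU hx
        obtain ⟨f', r', g', rfl, m1', m2', m3'⟩ := mem_unitU hy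
        exact weight_mono _ _ _ (emb_le hw htt m1 m2 m3 m1' m2' m3')
      · intro x hx y hy
        rw [List.mem_singleton] at hy
        subst hy
        exact weight_mono _ _ _ (fun i => (hm x (Or.inr (Or.inl hx)) i).2)
      · intro x hx y hy
        rw [List.mem_singleton] at hx
        subst hx
        rw [List.mem_append] at hy
        exact weight_mono _ _ _ (fun i => (hm y (Or.inr hy) i).1)
    · have hm : ∀ h ∈ pass (k + 1) false j, ∀ i, 0 ≤ h i ∧ h i ≤ 1 :=
        fun h hh => (hb false j hj h hh).1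
      simp only [pass, List.mem_append] at hm
      simp only [pass, List.pairwise_append]
      refine ⟨List.pairwise_singleton _ _, ⟨?_, List.pairwise_singleton _ _, ?_⟩, ?_⟩
      · rw [List.pairwise_flatMap]
        refine ⟨fun t _ => pw_unitD hw k ih j t, ?_⟩
        rw [List.pairwise_reverse]
        refine List.pairwise_lt_range.imp ?_
        intro t t' htt x hx y hy
        obtain ⟨f, r, g, rfl, m1, m2, m3⟩ := mem_unitD hx
        obtain ⟨f', r', g', rfl, m1', m2', m3'⟩ := mem_unitD hy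
        exact weight_mono _ _ _ (emb_le hw htt m1' m2' m3' m1 m2 m3)
      · intro x hx y hy
        rw [List.mem_singleton] at hy
        subst hy
        exact weight_mono _ _ _ (fun i => (hm x (Or.inr (Or.inl hx)) i).1)
      · intro x hx y hy
        rw [List.mem_singleton] at hx
        subst hx
        rw [List.mem_append] at hy
        exact weight_mono _ _ _ (fun i => (hm y (Or.inr hy) i).2)

end WeightAux

/-- The weight is between `0` and `1` and monotone in every pass. -/
theorem claimWeight (hw : ClaimWindow) : ClaimWeight :=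
  ⟨WeightAux.weight_mono, WeightAux.weight_zero_one, WeightAux.pw hw⟩

end Pool.Agent.Work.MP_e17eac_co.PL
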