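import Pool.Agent.Work.MP_e17eac_co.PL.Rec

/-!
# Slopes and windows
-/

set_option autoImplicit false

namespace Pool.Agent.Work.MP_e17eac_co.PL

theorem claimSlope : ClaimSlope := by
  intro k
  induction k with
  | zero => exact ⟨fun i => by simp [slope], fun i i' _ => by simp [slope]⟩
  | succ k ih =>
    obtain ⟨h1, h2⟩ := ih
    constructor
    · intro i
      simp only [slope, comb]
      split_ifs
      · obtain ⟨a, b⟩ := h1 i
        constructor <;> linarith
      · norm_num
      · obtain ⟨a, b⟩ := h1 (i - numC k - 1)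
        constructor <;> linarith
    · intro i i' hi
      simp only [slope, comb]
      have a1 := h1 i
      have a2 := h1 i'
      have a3 := h1 (i - numC k - 1)
      have a4 := h1 (i' - numC k - 1)
      split_ifs
      · have := h2 i i' hi
        linarith
      · linarith
      · linarith
      · omega
      · exact le_rfl
      · linarith
      · omega
      · omega
      · have := h2 (i - numC k - 1) (i' - numC k - 1) (by omega)
        linarith

namespace Window

/-- bounds and window of a state -/
def Good (k : ℕ) (h : ℕ → ℚ) : Prop :=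
  (∀ i, 0 ≤ h i ∧ h i ≤ 1) ∧
    (∀ i i', i < i' → h i' - h i ≤ slope k i' - slope k i ∧
      h i - h i' ≤ slope k i' - slope k i)

lemma good_zero (k : ℕ) : Good k 0 := by
  refine ⟨fun i => by simp, fun i i' hi => ?_⟩
  have := (claimSlope k).2 i i' hi.le
  simp only [Pi.zero_apply, sub_self]
  constructor <;> linarith

lemma good_one (k : ℕ) : Good k 1 := by
  refine ⟨fun i => by simp, fun i i' hi => ?_⟩
  have := (claimSlope k).2 i i' hi.le
  simp only [Pi.one_apply, sub_self]
  constructor <;> linarith

lemma weight_mem (k : ℕ) : ∀ h : ℕ → ℚ, (∀ i, 0 ≤ h i ∧ h i ≤ 1) →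
    0 ≤ weight k h ∧ weight k h ≤ 1 := by
  induction k with
  | zero => intro h hh; exact hh 0
  | succ k ih =>
    intro h hh
    have h1 := ih h hh
    have h2 := ih (fun i => h (numC k + 1 + i)) (fun i => hh _)
    have h3 := hh (numC k)
    simp only [weight]
    constructor <;> linarith

lemma emb_good {k j t : ℕ} (hj : j < 3) (ht : t < 112) {f g : ℕ → ℚ} {r : ℚ} (hf : Good k f)
    (hg : Good k g) (hr : 0 ≤ r ∧ r ≤ 1) : Good (k + 1) (emb k j t f r g) := by
  have hj' : (j : ℚ) ≤ 2 := by exact_mod_cast (by omega : j ≤ 2)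
  have hj0 : (0 : ℚ) ≤ j := by positivity
  have ht' : (t : ℚ) ≤ 111 := by exact_mod_cast (by omega : t ≤ 111)
  have ht0 : (0 : ℚ) ≤ t := by positivity
  obtain ⟨s1, s2⟩ := claimSlope k
  constructor
  · intro i
    simp only [emb, comb]
    split_ifs
    · have h1 := hf.1 i
      have h2 := s1 i
      have h3 : 0 ≤ (j : ℚ) * slope k i := mul_nonneg hj0 h2.1
      have h4 : (j : ℚ) * slope k i ≤ 2 * 1 := mul_le_mul hj' h2.2 h2.1 (by norm_num)
      constructor <;> linarith
    · constructor <;> linarith
    · have h1 := hg.1 (i - numC k - 1)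
      have h2 := s1 (i - numC k - 1)
      have h3 : 0 ≤ (j : ℚ) * slope k (i - numC k - 1) := mul_nonneg hj0 h2.1
      have h4 : (j : ℚ) * slope k (i - numC k - 1) ≤ 2 * 1 :=
        mul_le_mul hj' h2.2 h2.1 (by norm_num)
      constructor <;> linarith
  · -- the general inequality
    have key : ∀ s s' x x' : ℚ, 0 ≤ s' - s → x' - x ≤ s' - s → x - x' ≤ s' - s →
        (2 * (j : ℚ) * s' + t + x') / 128 - (2 * (j : ℚ) * s + t + x) / 128
          ≤ 5 / 128 * s' - 5 / 128 * s ∧
        (2 * (j : ℚ) * s + t + x) / 128 - (2 * (j : ℚ) * s' + t + x') / 128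
          ≤ 5 / 128 * s' - 5 / 128 * s := by
      intro s s' x x' h1 h2 h3
      have h4 : 0 ≤ (j : ℚ) * (s' - s) := mul_nonneg hj0 h1
      have h5 : (j : ℚ) * (s' - s) ≤ 2 * (s' - s) := mul_le_mul_of_nonneg_right hj' h1
      constructor <;> linarith
    intro i i' hi
    simp only [emb, slope, comb]
    have a1 := s1 i
    have a2 := s1 i'
    have a3 := s1 (i - numC k - 1)
    have a4 := s1 (i' - numC k - 1)
    have b1 := hf.1 i
    have b4 := hg.1 (i' - numC k - 1)
    split_ifs
    · exact key _ _ _ _ (by linarith [s2 i i' hi.le]) (hf.2 i i' hi).1 (hf.2 i i' hi).2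
    · omega
    · omega
    · exact key _ _ _ _ (by linarith) (by linarith) (by linarith)
    · omega
    · omega
    · exact key _ _ _ _ (by linarith) (by linarith) (by linarith)
    · exact key _ _ _ _ (by linarith) (by linarith) (by linarith)
    · have hi2 : i - numC k - 1 < i' - numC k - 1 := by omega
      have c1 := hg.2 _ _ hi2
      exact key _ _ _ _ (by linarith [s2 _ _ hi2.le]) (by linarith [c1.1]) (by linarith [c1.2])

lemma unitU_good {k : ℕ} {P : Bool → ℕ → List (ℕ → ℚ)}
    (hP : ∀ b j, j < 3 → ∀ h ∈ P b j, Good k h) {j t : ℕ} (hj : j < 3) (ht : t < 112) :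
    ∀ h ∈ unitU k P j t, Good (k + 1) h := by
  intro h hh
  simp only [unitU, List.mem_append, List.mem_map] at hh
  rcases hh with ⟨a, ha, rfl⟩ | ⟨a, ha, rfl⟩ | ⟨a, ha, rfl⟩ | ⟨a, ha, rfl⟩
  · exact emb_good hj ht (good_zero k) (hP _ _ (by norm_num) a ha) (by norm_num)
  · exact emb_good hj ht (hP _ _ (by norm_num) a ha) (good_one k) (by norm_num)
  · have hg := hP _ _ (by norm_num) a ha
    have hw := weight_mem k a hg.1
    exact emb_good hj ht hg (good_one k) ⟨by linarith, by linarith⟩
  · exact emb_good hj ht (hP _ _ (by norm_num) a ha) (good_one k) (by norm_num)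

lemma unitD_good {k : ℕ} {P : Bool → ℕ → List (ℕ → ℚ)}
    (hP : ∀ b j, j < 3 → ∀ h ∈ P b j, Good k h) {j t : ℕ} (hj : j < 3) (ht : t < 112) :
    ∀ h ∈ unitD k P j t, Good (k + 1) h := by
  intro h hh
  simp only [unitD, List.mem_append, List.mem_map] at hh
  rcases hh with ⟨a, ha, rfl⟩ | ⟨a, ha, rfl⟩ | ⟨a, ha, rfl⟩ | ⟨a, ha, rfl⟩
  · exact emb_good hj ht (hP _ _ (by norm_num) a ha) (good_one k) (by norm_num)
  · exact emb_good hj ht (good_zero k) (hP _ _ (by norm_num) a ha) (by norm_num)
  · have hg := hP _ _ (by norm_num) a ha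
    have hw := weight_mem k a hg.1
    exact emb_good hj ht (good_zero k) hg ⟨by linarith, by linarith⟩
  · exact emb_good hj ht (good_zero k) (hP _ _ (by norm_num) a ha) (by norm_num)

lemma pass_good (k : ℕ) : ∀ b j, j < 3 → ∀ h ∈ pass k b j, Good k h := by
  induction k with
  | zero =>
    intro b j _ h hh
    cases b
    · simp only [pass, List.mem_cons, List.not_mem_nil, or_false] at hh
      rcases hh with rfl | rfl
      · exact good_one 0
      · exact good_zero 0
    · simp only [pass, List.mem_cons, List.not_mem_nil, or_false] at hh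
      rcases hh with rfl | rfl
      · exact good_zero 0
      · exact good_one 0
  | succ k ih =>
    intro b j hj h hh
    cases b
    · simp only [pass, List.mem_append, List.mem_flatMap, List.mem_reverse, List.mem_range,
        List.mem_cons, List.not_mem_nil, or_false] at hh
      rcases hh with rfl | ⟨t, ht, hh⟩ | rfl
      · exact good_one _
      · exact unitD_good ih hj ht h hh
      · exact good_zero _
    · simp only [pass, List.mem_append, List.mem_flatMap, List.mem_range,
        List.mem_cons, List.not_mem_nil, or_false] at hh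
      rcases hh with rfl | ⟨t, ht, hh⟩ | rfl
      · exact good_zero _
      · exact unitU_good ih hj ht h hh
      · exact good_one _

end Window

theorem claimWindow : ClaimWindow := fun k b j hj h hh => Window.pass_good k b j hj h hh

end Pool.Agent.Work.MP_e17eac_co.PL
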